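import Pool.Agent.H25.LSH.H3a
import Pool.Agent.H7.MIC.Plf
import Pool.Agent.H12.LSH.Smq
import Pool.Agent.H12.MICA.Ent2

/-!
# The sheets of a cell: positions over closed labels

`full_V`: the position of rank `r` over the closed label at its place is full given the lower
coordinates and the contexts. `low_two`: the heights of the lower ranks, two samples with the same
data.
-/

set_option autoImplicit false

namespace Pool.LSH

open Finset MvPolynomial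
open Pool.Agent.H49.Ent Pool.Agent.H32.Dense Pool.STK Pool.STAT Pool.MIC Pool.MicA Pool.PTH
open Pool.MIC.Frm (nat pt pt_eq)
open Pool.BFL (Pl Pb)
open Pool.KAF (Pr)
open Pool.GSD (Fra FrP Sd sd_line ztS)
open Pool.PLK (off off_eq hvS hdS)

/-! ### Pure -/

/-- One digit is full given the other ones. -/
theorem one_full {Ω γ : Type} [Fintype Ω] {q : Ω → ℝ} (hq : IsLaw q) {m X : ℕ}
    (F : Finset (Fin m)) {l : Fin m} (hl : l ∉ F) (v : Ω → Fin m → ℤ)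
    (hb : ∀ ω, 0 < q ω → ∀ l, |v ω l| ≤ 2 ^ (X + 1)) (G : Ω → γ) {err : ℝ}
    (h : ((m : ℝ) - F.card) * (X * Real.log 2) - err ≤ CH q (off F v) G) :
    X * Real.log 2 - err - 3 * m ≤
      CH q (fun ω => v ω l) (fun ω => (off (insert l F) v ω, G ω)) := by
  classical
  have h1 := Pool.PLK.in_le hq (X := X + 1) (insert l F)ᶜ v G hb
  rw [compl_compl, card_compl, Fintype.card_fin, card_insert_of_notMem hl] at h1
  have h2 := CH_le_add hq.nonneg (off F v) (off (insert l F) v) G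
  have h3 : CH q (off F v) (fun ω => (off (insert l F) v ω, G ω)) ≤
      CH q (fun ω => v ω l) (fun ω => (off (insert l F) v ω, G ω)) := by
    refine CH_mono_left hq.nonneg fun ω ω' _ _ e => ?_
    simp only [Prod.mk.injEq] at e
    funext l'
    unfold off
    by_cases h4 : l' ∈ F
    · rw [if_pos h4, if_pos h4]
    · rw [if_neg h4, if_neg h4]
      by_cases h5 : l' = l
      · rw [h5]
        exact e.1
      · exact off_eq e.2.1 (by
          rw [Finset.mem_insert]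
          push Not
          exact ⟨h5, h4⟩)
  have hm : F.card + 1 ≤ m := by
    have h4 := card_le_univ (insert l F)
    rw [Fintype.card_fin, card_insert_of_notMem hl] at h4
    exact h4
  rw [Nat.cast_sub hm] at h1
  push_cast at h1
  have hl2 : Real.log 2 ≤ 1 := by
    have := Real.log_two_lt_d9
    linarith
  have hl0 : 0 < Real.log 2 := Real.log_pos one_lt_two
  have hmr : (F.card : ℝ) + 1 ≤ m := by exact_mod_cast hm
  have h6 : ((m : ℝ) - (F.card + 1)) * ((X + 1) * Real.log 2 + 2 * Real.log 2) ≤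
      ((m : ℝ) - F.card) * (X * Real.log 2) - X * Real.log 2 + 3 * m := by
    have h7 : ((m : ℝ) - (F.card + 1)) * ((X + 1) * Real.log 2 + 2 * Real.log 2) =
      ((m : ℝ) - F.card) * (X * Real.log 2) - X * Real.log 2 +
        ((m : ℝ) - (F.card + 1)) * (3 * Real.log 2) := by ring
    rw [h7]
    have h8 : ((m : ℝ) - (F.card + 1)) * (3 * Real.log 2) ≤ m * 3 := by
      refine mul_le_mul ?_ (by linarith) (by positivity) (Nat.cast_nonneg _)
      have : (0 : ℝ) ≤ F.card := Nat.cast_nonneg _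
      linarith
    linarith
  linarith

/-- Chain of contexts. -/
theorem det_add {D : NDat2} {n K J a₀ w₀ z M : ℕ} {lam gam : ℕ → ℝ} {κ C₁ : ℝ} {q : D.Ω → ℝ}
    (hO : D.Ok2 n K J a₀ w₀ z M lam gam κ C₁ q) {i j : ℕ} (hj : j ≤ M) :
    ∀ d, i + d ≤ M → Det q (D.c (i + d) j) (D.c i j) := by
  intro d
  induction d with
  | zero => exact fun _ _ _ _ _ e => e
  | succ d ih =>
    intro h ω ω' p p' e
    exact ih (by omega) ω ω' p p' (hO.c_i (i + d) (by omega) j hj ω ω' p p' e)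

theorem det_le {D : NDat2} {n K J a₀ w₀ z M : ℕ} {lam gam : ℕ → ℝ} {κ C₁ : ℝ} {q : D.Ω → ℝ}
    (hO : D.Ok2 n K J a₀ w₀ z M lam gam κ C₁ q) {a b : ℕ × ℕ} (h1 : a.1 ≤ b.1) (h2 : a.2 = b.2)
    (h3 : b.1 ≤ M) (h4 : b.2 ≤ M) : Det q (D.c b.1 b.2) (D.c a.1 a.2) := by
  obtain ⟨d, hd⟩ := Nat.exists_eq_add_of_le h1
  rw [hd, ← h2]
  exact det_add hO (by omega) d (by omega)

theorem fl_le {X : ℕ} {x y A : ℝ} (h : |x - y| ≤ A / 2 ^ X) :
    |((⌊(2 : ℝ) ^ X * x⌋ - ⌊(2 : ℝ) ^ X * y⌋ : ℤ) : ℝ)| ≤ A + 1 := by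
  refine dig_near ?_
  rw [mul_one_div]
  exact h

/-- The direction at the place of rank `r`: `o` is on the right, the wide coordinates `F` are deeper
at `o`, the others are deeper on the left. -/
def Dir (D : NDat2) (n z X c M : ℕ) {k : ℕ} (π : Pls k) (r : Fin k) : Prop :=
  ∃ (a b s : ℕ) (F : Finset (Fin (n - 1))), a ≤ (π.p r).1 ∧
    π.o = ((π.p r).1 - a, (π.p r).2 + b) ∧ (π.p r).1 + s * a < M ∧ s * b ≤ (π.p r).2 ∧
    (∀ l : Fin (n - 1), π.rk (l + 1) ≤ r → l ∉ F) ∧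
    (∀ l : Fin (n - 1), l ∉ F → D.g (π.p r).1 (π.p r).2 (l + 1) + X ≤
      D.g ((π.p r).1 + s * a) ((π.p r).2 - s * b) (l + 1) + c * z) ∧
    (∀ l : Fin (n - 1), l ∈ F → D.g (π.p r).1 (π.p r).2 (l + 1) + X ≤
      D.g π.o.1 π.o.2 (l + 1) + c * z)

/-- The position of rank `r` over the closed label is full given the lower coordinates and the
contexts. -/
theorem full_V (n K : ℕ) (lam gam : ℕ → ℝ) (C₁ : ℝ) (hC₁ : 1 ≤ C₁) (c : ℕ) : ∃ C : ℝ, 1 ≤ C ∧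
    ∀ (M : ℕ) (η : ℝ), 2 ≤ M → 0 < η → ∃ (κ₀ : ℝ) (z₀ : ℕ), 0 < κ₀ ∧
    ∀ (J a₀ w₀ z X k : ℕ) (κ κ' : ℝ) (D : NDat2) (q : D.Ω → ℝ) (π : Pls k), z₀ ≤ z →
      z ≤ X → κ ≤ κ₀ → κ' ≤ 1 → Plc D n z X c M π → D.Ok2 n K J a₀ w₀ z M lam gam κ C₁ q →
      D.DMA z M κ' q → ∀ (r : Fin k) (l : Fin (n - 1)), π.rk (l + 1) ≤ r →
      Dir D n z X c M π r → (π.p r).1 + X / z ≤ M → ∃ F : Finset (Fin (n - 1)),
      (∀ l : Fin (n - 1), π.rk (l + 1) ≤ r → l ∉ F) ∧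
      X * Real.log 2 - (C * z + η * X) ≤
        CH q (fun ω => hvS D (n - 1) (π.p r).1 (π.p r).2 X (D.Φ (π.p r).1 (π.p r).2) ω l)
          (fun ω => (off (insert l F)
            (hvS D (n - 1) (π.p r).1 (π.p r).2 X (D.Φ (π.p r).1 (π.p r).2)) ω,
            (D.c π.o.1 π.o.2 ω, (D.c (π.p r).1 (π.p r).2 ω, D.T ω)))) := by
  obtain ⟨C, hC, hpl⟩ := Pool.PLK.pl_full n K lam gam C₁ hC₁ c
  have hn0 : (0 : ℝ) ≤ n := Nat.cast_nonneg n
  refine ⟨C + 4 * n, by linarith, fun M η hM hη => ?_⟩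
  obtain ⟨κ₀, z₀, hκ₀, hpl⟩ := hpl M η hM hη
  refine ⟨κ₀, max z₀ 1, hκ₀, ?_⟩
  intro J a₀ w₀ z X k κ κ' D q π hz hzX hκ hκ' hP hO hD r l hl hdir hX
  obtain ⟨a, b, s, F, d1, d2, d3, d4, d5, d6, d7⟩ := hdir
  obtain ⟨i, hi⟩ : ∃ i, i = (π.p r).1 := ⟨_, rfl⟩
  obtain ⟨j, hj⟩ : ∃ j, j = (π.p r).2 := ⟨_, rfl⟩
  rw [← hi] at d1 d2 d3 d6 d7 hX ⊢
  rw [← hj] at d2 d4 d6 d7 ⊢
  have o1 : π.o.1 = i - a := by rw [d2]
  have o2 : π.o.2 = j + b := by rw [d2]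
  rw [o1, o2] at d7 ⊢
  have hz1 : 1 ≤ z := (le_max_right _ _).trans hz
  have hzr : (1 : ℝ) ≤ z := by exact_mod_cast hz1
  have hq := hO.isLaw
  have hoM := hP.o_lt
  rw [o1, o2] at hoM
  have hjM : j < M := by omega
  have hiM : i < M := by
    have := Nat.le_add_right i (s * a)
    omega
  obtain ⟨U, hU⟩ : ∃ U, U = X / z := ⟨_, rfl⟩
  rw [← hU] at hX
  have u1 : U * z ≤ X := by rw [hU]; exact Nat.div_mul_le_self _ _
  have u2 : X ≤ U * z + z := by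
    have h1 := Nat.div_add_mod X z
    have h2 := Nat.mod_lt X (show 0 < z by omega)
    rw [hU, mul_comm]
    omega
  obtain ⟨V, hV⟩ : ∃ V, V = hvS D (n - 1) i j X (D.Φ i j) := ⟨_, rfl⟩
  obtain ⟨G, hG⟩ : ∃ G : D.Ω → D.Γ × (D.Γ × ℕ), G = fun ω => (D.c (i - a) (j + b) ω,
    (D.c i j ω, D.T ω)) := ⟨_, rfl⟩
  refine ⟨F, d5, ?_⟩
  rw [← hV]
  have hls : l ∉ F := d5 l hl
  -- the digits outside `F`
  have h1 := (hpl J a₀ w₀ z κ κ' D q ((le_max_left _ _).trans hz) hκ hκ' hO hD i j a b s 1 1 U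
    (D.Φ i j) F d3 d4 hjM (by omega) (by omega) le_rfl hX
    (fun ω hω => sd_line hO hiM.le hjM.le hω)
    (Pool.PLK.det_line fun ω ω' _ _ e => (Prod.ext_iff.1 e).1)
    (fun l hl => by have := d6 l hl; omega) (fun l hl => by
      have := d7 l hl
      rw [one_mul, one_mul]
      omega)).1
  have h2 : CH q (off F (hvS D (n - 1) i j (U * z) (D.Φ i j)))
      (fun ω => (D.rgt i j a b 1 ω, (D.c i j ω, D.T ω))) ≤ CH q (off F V) G := by
    refine le_trans (CH_mono_cond (W := G) hq.nonneg fun ω ω' _ _ e => ?_) (CH_mono_left hq.nonneg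
      fun ω ω' _ _ e => ?_)
    · rw [hG]
      have e1 := Prod.ext_iff.1 e
      have e2 : D.rgt i j a b 1 ω = D.rgt i j a b 1 ω' := e1.1
      have e3 := congrFun e2 1
      unfold NDat2.rgt at e3
      simp only [Fin.val_one, one_mul] at e3
      exact Prod.ext e3 e1.2
    · have e1 : off F V ω = off F V ω' := (Prod.ext_iff.1 e).1
      funext l'
      unfold off
      by_cases h3 : l' ∈ F
      · rw [if_pos h3, if_pos h3]
      · rw [if_neg h3, if_neg h3]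
        have e2 := off_eq e1 h3
        rw [hV] at e2
        unfold hvS hdS at e2 ⊢
        rw [fl_coarse u1, fl_coarse u1 (ztS D i j (D.Φ i j) ω' (l' + 1)), e2]
  have h3 : (((n - 1 : ℕ) : ℝ) - F.card) * (X * Real.log 2) - ((C + n) * z + η * X) ≤
      CH q (off F V) G := by
    refine le_trans ?_ (h1.trans h2)
    have u1' : (U : ℝ) * z ≤ X := by exact_mod_cast u1
    have u2' : (X : ℝ) ≤ U * z + z := by exact_mod_cast u2
    have hl2 : Real.log 2 ≤ 1 := by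
      have := Real.log_two_lt_d9
      linarith
    have hl0 : 0 < Real.log 2 := Real.log_pos one_lt_two
    have hF1 : (F.card : ℝ) ≤ ((n - 1 : ℕ) : ℝ) := by
      have h4 := card_le_univ F
      rw [Fintype.card_fin] at h4
      exact_mod_cast h4
    have hF0 : (0 : ℝ) ≤ F.card := Nat.cast_nonneg _
    have hnn : ((n - 1 : ℕ) : ℝ) ≤ n := by exact_mod_cast Nat.sub_le _ _
    have k1 : (((n - 1 : ℕ) : ℝ) - F.card) * (X * Real.log 2) ≤
        (((n - 1 : ℕ) : ℝ) - F.card) * ((U * z + z) * Real.log 2) :=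
      mul_le_mul_of_nonneg_left (mul_le_mul_of_nonneg_right u2' hl0.le) (by linarith)
    have k2 : (((n - 1 : ℕ) : ℝ) - F.card) * (z * Real.log 2) ≤ n * (z * 1) :=
      mul_le_mul (by linarith) (mul_le_mul_of_nonneg_left hl2 (by linarith)) (by positivity) hn0
    have k3 : η * ((U : ℝ) * z) ≤ η * X := mul_le_mul_of_nonneg_left u1' hη.le
    have k4 : (((n - 1 : ℕ) : ℝ) - F.card) * ((U * z + z) * Real.log 2) =
      (((n - 1 : ℕ) : ℝ) - F.card) * (U * z) * Real.log 2 +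
        (((n - 1 : ℕ) : ℝ) - F.card) * (z * Real.log 2) := by ring
    linarith
  have h4 := one_full hq F hls V (fun ω hω l => by
    rw [hV]
    exact Pool.PLK.hv_le (Nat.sub_le _ _) (sd_line hO hiM.le hjM.le hω) l) G h3
  rw [hG] at h4
  refine le_trans ?_ h4
  have hnn : ((n - 1 : ℕ) : ℝ) ≤ n := by exact_mod_cast Nat.sub_le _ _
  have k1 : (n : ℝ) ≤ n * z := le_mul_of_one_le_right hn0 hzr
  linarith

/-! ### Two samples of the event -/

/-- The good samples. -/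
def Ev (D : NDat2) (n K' w₀ J z M : ℕ) (C₀ : ℝ) {k : ℕ} (π : Pls k) (ω : D.Ω) : Prop :=
  Fra D n K' M z C₀ ω ∧ ∀ s, LE D J (w₀ + (π.p s).2 * z) z n (π.p s) ω

section

variable {D : NDat2} {n K J a₀ w₀ z M w X c : ℕ} {lam gam : ℕ → ℝ} {κ C₁ : ℝ} {q : D.Ω → ℝ}
  {k : ℕ} {π : Pls k} {K' : ℕ} {C₀ : ℝ}

theorem p2_lt (hP : Plc D n z X c M π) (hz : 1 ≤ z) (s : Fin k) : (π.p s).2 < M := by
  by_contra hcon
  have e1 := hP.win s
  have e2 : π.o.2 * z ≤ (π.p s).2 * z :=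
    Nat.mul_le_mul_right z (hP.o_lt.2.le.trans (not_lt.1 hcon))
  omega

theorem Ev.wn (hP : Plc D n z X c M π) (hw : w = w₀ + π.o.2 * z) (hz : 1 ≤ z) {ω : D.Ω}
    (h : Ev D n K' w₀ J z M C₀ π ω) (s : Fin k) : Wn D n w₀ w J z X M (π.p s) ω :=
  ⟨⟨hP.p_lt s, p2_lt hP hz s⟩, by
    have := hP.win s
    omega, h.2 s⟩

/-- The coordinate of a rank, as an index. -/
def ix (hP : Plc D n z X c M π) (r : Fin k) : Fin (n - 1) :=
  ⟨π.co r - 1, by have := hP.co_ge r; have := hP.co_lt r; omega⟩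

theorem ix_add (hP : Plc D n z X c M π) (r : Fin k) : ((ix hP r : ℕ)) + 1 = π.co r := by
  have := hP.co_ge r
  unfold ix
  dsimp only
  omega

theorem k_le (hP : Plc D n z X c M π) : k ≤ n - 1 := by
  have h := Fintype.card_le_of_injective (ix hP) fun r s e => by
    have e1 := congrArg Fin.val e
    have e2 := ix_add hP r
    have e3 := ix_add hP s
    exact hP.inj (by omega)
  rw [Fintype.card_fin, Fintype.card_fin] at h
  exact h

end

/-- **The heights of the lower ranks**, two samples with the same data. -/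
theorem low_two (n K' : ℕ) (C₀ : ℝ) (hC₀ : 0 ≤ C₀) (c : ℕ) : ∃ C₂ : ℝ, 1 ≤ C₂ ∧
    ∀ {D : NDat2} {K J a₀ w₀ z M X k : ℕ} {lam gam : ℕ → ℝ} {κ C₁ : ℝ} {q : D.Ω → ℝ}
      {π : Pls k} {F : Finset (Fin (n - 1))}, K ≤ K' → 1 ≤ z →
      D.Ok2 n K J a₀ w₀ z M lam gam κ C₁ q → ∀ (hP : Plc D n z X c M π) {r : Fin k},
      (∀ s ≤ r, (π.p s).1 ≤ (π.p r).1) → (∀ l : Fin (n - 1), π.rk (l + 1) ≤ r → l ∉ F) →
      ∀ {ω ω' : D.Ω}, 0 < q ω → 0 < q ω' → Fra D n K' M z C₀ ω →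
      off (insert (ix hP r) F) (hvS D (n - 1) (π.p r).1 (π.p r).2 X
        (D.Φ (π.p r).1 (π.p r).2)) ω = off (insert (ix hP r) F) (hvS D (n - 1) (π.p r).1
          (π.p r).2 X (D.Φ (π.p r).1 (π.p r).2)) ω' →
      D.c (π.p r).1 (π.p r).2 ω = D.c (π.p r).1 (π.p r).2 ω' → D.T ω = D.T ω' →
      ∀ {s t : Fin k}, s ≤ r → t < r →
        |zt D (π.p s).1 (π.p s).2 ω (π.co t) - zt D (π.p s).1 (π.p s).2 ω' (π.co t)| ≤
          Real.exp (C₂ * z) / 2 ^ X := by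
  obtain ⟨C₂, hC₂, htwo⟩ := Pool.PLK.plk_two n K' C₀ hC₀ c
  refine ⟨C₂, hC₂, ?_⟩
  intro D K J a₀ w₀ z M X k lam gam κ C₁ q π F hK hz hO hP r hmon hF ω ω' hω hω' hFr hoff hc hT s t
    hs ht
  have h0X : (0 : ℝ) < 2 ^ X := by positivity
  have hpr2 := p2_lt hP hz r
  have hps2 := p2_lt hP hz s
  rcases hP.drop s r hs with h1 | h1
  · -- the same place
    rw [h1]
    have h2 : ix hP t ∉ insert (ix hP r) F := by
      rw [Finset.mem_insert]
      push Not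
      refine ⟨fun e => ?_, hF _ ?_⟩
      · have e1 := congrArg Fin.val e
        have e2 := ix_add hP t
        have e3 := ix_add hP r
        have e4 : π.co t = π.co r := by omega
        exact absurd (hP.inj e4) ht.ne
      · rw [ix_add, rk_co hP.inj]
        exact ht.le
    have h3 := off_eq hoff h2
    unfold hvS hdS at h3
    rw [ix_add] at h3
    have h4 := Pool.PLK.fl_close h3
    refine le_trans h4 (div_le_div_of_nonneg_right ?_ h0X.le)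
    exact Pool.GSD.one_le_e (by linarith)
  · -- another place
    obtain ⟨P, hFP⟩ := hFr
    have hcs : D.c (π.p s).1 (π.p s).2 ω = D.c (π.p s).1 (π.p s).2 ω' :=
      det_le hO (hmon s hs) (hP.same s r) (hP.p_lt r).le hpr2.le ω ω' hω hω' hc
    have eS : D.Φ (π.p s).1 (π.p s).2 ω' = D.Φ (π.p s).1 (π.p s).2 ω := by
      unfold NDat2.Φ
      rw [hcs]
    have eS' : D.Φ (π.p r).1 (π.p r).2 ω' = D.Φ (π.p r).1 (π.p r).2 ω := by
      unfold NDat2.Φ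
      rw [hc]
    have e0 : D.X ω' 0 = D.X ω 0 := by rw [hO.X_zero, hO.X_zero, hT]
    have h5 := htwo D K z M (π.p s).1 (π.p s).2 (π.p r).1 (π.p r).2 (π.p s).1 (π.p s).2 (n - 1) X
      (D.Φ (π.p s).1 (π.p s).2) (D.Φ (π.p r).1 (π.p r).2) (D.Φ (π.p s).1 (π.p s).2) ω ω' P hK hz
      (hP.p_lt s) hps2 (hP.p_lt r) hpr2 (hP.p_lt s) hps2 (Nat.sub_le _ _)
      (fun i j x => hO.G_tri i j x) (fun i j x l => hO.G_deg i j x l) hFP
      (sd_line hO (hP.p_lt s).le hps2.le hω) (sd_line hO (hP.p_lt r).le hpr2.le hω)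
      (sd_line hO (hP.p_lt s).le hps2.le hω) (sd_line hO (hP.p_lt s).le hps2.le hω')
      (sd_line hO (hP.p_lt r).le hpr2.le hω') eS eS' eS e0
      (fun l l1 l2 => Or.inr ((h1 l l1 (by omega)).trans (Nat.le_add_right _ _)))
      (fun l _ _ => Nat.le_add_right _ _) (π.co t) (hP.co_ge t)
      (by have := hP.co_lt t; omega)
    rw [abs_sub_comm]
    exact h5

/-- The heights of the lines. -/
theorem low_hz {D : NDat2} {n K J a₀ w₀ z M w X : ℕ} {lam gam : ℕ → ℝ} {κ C₁ : ℝ} {q : D.Ω → ℝ}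
    (hO : D.Ok2 n K J a₀ w₀ z M lam gam κ C₁ q) (hw : w ≤ J) (ω₀ : D.Ω) {ω ω' : D.Ω}
    (hω : 0 < q ω) (hω' : 0 < q ω') {b : ℕ × ℕ} (hb : Wn D n w₀ w J z X M b ω)
    (hb' : Wn D n w₀ w J z X M b ω') {l : ℕ} (hl : l ≤ n) {A : ℝ}
    (h : |zt D b.1 b.2 ω l - zt D b.1 b.2 ω' l| ≤ A / 2 ^ X) :
    |hz D q J w ω₀ b (D.wn J w ω) l - hz D q J w ω₀ b (D.wn J w ω') l| ≤
      (A + 2 * A₀ K) / 2 ^ X := by
  have h1 := abs_le.1 (hz_near hO hw ω₀ hω hb hl)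
  have h2 := abs_le.1 (hz_near hO hw ω₀ hω' hb' hl)
  have h3 := abs_le.1 h
  have e : (A + 2 * A₀ K) / 2 ^ X = A / 2 ^ X + A₀ K / 2 ^ X + A₀ K / 2 ^ X := by ring
  rw [e, abs_le]
  constructor <;> linarith [h1.1, h1.2, h2.1, h2.2, h3.1, h3.2]

theorem low_zt {D : NDat2} {n K J a₀ w₀ z M w X : ℕ} {lam gam : ℕ → ℝ} {κ C₁ : ℝ} {q : D.Ω → ℝ}
    (hO : D.Ok2 n K J a₀ w₀ z M lam gam κ C₁ q) (hw : w ≤ J) (ω₀ : D.Ω) {ω ω' : D.Ω}
    (hω : 0 < q ω) (hω' : 0 < q ω') {b : ℕ × ℕ} (hb : Wn D n w₀ w J z X M b ω)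
    (hb' : Wn D n w₀ w J z X M b ω') {l : ℕ} (hl : l ≤ n) {A : ℝ}
    (h : |hz D q J w ω₀ b (D.wn J w ω) l - hz D q J w ω₀ b (D.wn J w ω') l| ≤ A / 2 ^ X) :
    |zt D b.1 b.2 ω l - zt D b.1 b.2 ω' l| ≤ (A + 2 * A₀ K) / 2 ^ X := by
  have h1 := abs_le.1 (hz_near hO hw ω₀ hω hb hl)
  have h2 := abs_le.1 (hz_near hO hw ω₀ hω' hb' hl)
  have h3 := abs_le.1 h
  have e : (A + 2 * A₀ K) / 2 ^ X = A / 2 ^ X + A₀ K / 2 ^ X + A₀ K / 2 ^ X := by ring
  rw [e, abs_le]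
  constructor <;> linarith [h1.1, h1.2, h2.1, h2.2, h3.1, h3.2]

end Pool.LSH
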