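import Pool.Agent.H25.LSH.H3b

/-!
# The sheets of a cell: every position is full given its lower data

`h3`, `h3_sh`: hypothesis (H3) of `shA`.
-/

set_option autoImplicit false

namespace Pool.LSH

open Finset MvPolynomial
open Pool.Agent.H49.Ent Pool.Agent.H32.Dense Pool.STK Pool.STAT Pool.MIC Pool.MicA Pool.PTH
open Pool.MIC.Frm (nat pt pt_eq)
open Pool.BFL (Pl Pb)
open Pool.KAF (Pr)
open Pool.GSD (Fra FrP Sd sd_line ztS)
open Pool.PLK (off off_eq hvS hdS)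

theorem tmu_le {D : NDat2} {J w₀ z : ℕ} {q : D.Ω → ℝ} {κ κ' : ℝ} (h : D.TmU J w₀ z κ q)
    (hk : κ ≤ κ') : D.TmU J w₀ z κ' q := by
  unfold NDat2.TmU at h ⊢
  have := mul_le_mul_of_nonneg_right hk (Nat.cast_nonneg (α := ℝ) z)
  linarith

theorem pr_pb {Ω : Type} [Fintype Ω] {q : Ω → ℝ} (hq : IsLaw q) (A : Ω → Prop) {e : ℝ}
    (h : Pb q (fun ω => ¬ A ω) ≤ e) : 1 - e ≤ Pr q {ω | A ω} := by
  classical
  have h1 : Pr q {ω | A ω} + Pb q (fun ω => ¬ A ω) = 1 := by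
    rw [← hq.sum_one]
    unfold Pool.KAF.Pr law Pool.BFL.Pb
    rw [← Finset.sum_add_distrib]
    refine Finset.sum_congr rfl fun ω _ => ?_
    by_cases h : A ω <;> simp [h]
  linarith

theorem log_small {A B : ℝ} {x : ℝ} (hA : 0 ≤ A) (hB : 1 ≤ B) (hx : Real.log B ≤ x) :
    Real.log (2 * (B + 2 * A + 1) + 1) ≤ 4 * A + 4 + x := by
  have h1 : Real.log (2 * (B + 2 * A + 1) + 1) ≤ Real.log ((4 * A + 5) * B) :=
    Real.log_le_log (by linarith) (by nlinarith)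
  rw [Real.log_mul (by linarith) (by linarith)] at h1
  have h2 := Real.log_le_sub_one_of_pos (show (0 : ℝ) < 4 * A + 5 by linarith)
  linarith

/-- **(H3)**: every position is full given its lower data. -/
theorem h3 (n K : ℕ) (lam gam : ℕ → ℝ) (C₁ : ℝ) (hC₁ : 1 ≤ C₁) (c : ℕ) : ∃ C : ℝ, 1 ≤ C ∧
    ∀ (M : ℕ) (η : ℝ), 2 ≤ M → 0 < η → ∃ (κ₀ : ℝ) (z₀ : ℕ), 0 < κ₀ ∧
    ∀ (J a₀ w₀ z X k : ℕ) (κ κ' : ℝ) (D : NDat2) (q : D.Ω → ℝ) (π : Pls k) (ω₀ : D.Ω),
      z₀ ≤ z → z ≤ X → κ ≤ κ₀ → κ' ≤ 1 → Plc D n z X c M π →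
      D.Ok2 n K J a₀ w₀ z M lam gam κ C₁ q → D.TmU J w₀ z κ₀ q → D.DMA z M κ' q →
      ∀ r : Fin k, (∀ s ≤ r, (π.p s).1 ≤ (π.p r).1) → Dir D n z X c M π r →
        (π.p r).1 + X / z ≤ M →
        X * Real.log 2 - (C * z + η * X) ≤
          CH q (fun ω => yd D π q J (w₀ + π.o.2 * z) ω₀ X (D.wn J (w₀ + π.o.2 * z) ω) r)
            (fun ω => Zd D π q J (w₀ + π.o.2 * z) ω₀ X r (D.wn J (w₀ + π.o.2 * z) ω)) := by
  classical
  obtain ⟨K', C₀, hKK, hC₀, hfr⟩ := Pool.GSD.frm_ev n K lam gam C₁ hC₁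
  obtain ⟨C₂, hC₂, hlow⟩ := low_two n K' C₀ hC₀ c
  obtain ⟨Cf, hCf, hfull⟩ := full_V n K lam gam C₁ hC₁ c
  have hA1 := A₀_ge K
  have hn0 : (0 : ℝ) ≤ n := Nat.cast_nonneg n
  have hc0 : (0 : ℝ) ≤ c := Nat.cast_nonneg c
  obtain ⟨C, hC⟩ : ∃ C : ℝ, C = Cf + 5 + (4 * A₀ K + 4) + c +
    (n + n * n) * (4 * A₀ K + 4 + C₂) := ⟨_, rfl⟩
  refine ⟨C, by
    have : 0 ≤ ((n : ℝ) + n * n) * (4 * A₀ K + 4 + C₂) := by positivity
    rw [hC]
    linarith, fun M η hM hη => ?_⟩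
  obtain ⟨η₁, hη₁⟩ : ∃ η₁ : ℝ, η₁ = min (1 / (2 * ((n : ℝ) + 1))) (η / (10 * ((n : ℝ) + 1))) := ⟨_, rfl⟩
  have hη1 : 0 < η₁ := by
    rw [hη₁]
    exact lt_min (by positivity) (by positivity)
  have hη2 : (n + 1) * η₁ ≤ 1 / 2 := by
    have h1 : η₁ ≤ 1 / (2 * (n + 1)) := by
      rw [hη₁]
      exact min_le_left _ _
    rw [le_div_iff₀ (by positivity)] at h1
    linarith
  have hη3 : (n + 1) * η₁ ≤ η / 10 := by
    have h1 : η₁ ≤ η / (10 * (n + 1)) := by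
      rw [hη₁]
      exact min_le_right _ _
    rw [le_div_iff₀ (by positivity)] at h1
    linarith
  obtain ⟨κa, za, hκa, hFr⟩ := hfr M η₁ hM hη1
  obtain ⟨κb, zb, hκb, hLE⟩ := le_ev n K η₁ hη1
  obtain ⟨κc, zc, hκc, hfull⟩ := hfull M (η / 2) hM (by positivity)
  obtain ⟨zd, hzd⟩ := pow_unbounded_of_one_lt (A₀ K) (one_lt_two : (1 : ℝ) < 2)
  refine ⟨min κa (min κb κc), za + zb + zc + zd + 1, lt_min hκa (lt_min hκb hκc), ?_⟩
  intro J a₀ w₀ z X k κ κ' D q π ω₀ hzz hzX hκ hκ' hP hO hU hD r hmon hdir hXM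
  have hz1 : 1 ≤ z := by omega
  have hzr : (1 : ℝ) ≤ z := by exact_mod_cast hz1
  have hXr : (1 : ℝ) ≤ X := hzr.trans (by exact_mod_cast hzX)
  have hq := hO.isLaw
  have hUb : D.TmU J w₀ z κb q := tmu_le hU ((min_le_right _ _).trans (min_le_left _ _))
  obtain ⟨w, hw⟩ : ∃ w, w = w₀ + π.o.2 * z := ⟨_, rfl⟩
  have hwJ : w ≤ J := by
    have e1 := hO.top
    have e2 := hO.thin
    have e3 : π.o.2 * z ≤ M * z := Nat.mul_le_mul_right z hP.o_lt.2.le
    have e4 : (M + 1) * z = M * z + z := by ring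
    omega
  have how : w₀ + π.o.2 * z ≤ w := hw.ge
  have do' : Det q (D.wn J w) (D.c π.o.1 π.o.2) := det_c hO hP.o_lt.1.le hP.o_lt.2.le how hwJ
  have dp : ∀ s, Det q (D.wn J w) (D.c (π.p s).1 (π.p s).2) := fun s =>
    det_c hO (hP.p_lt s).le (p2_lt hP hz1 s).le (by have := hP.win s; omega) hwJ
  rw [← hw]
  -- the event
  have hEv : Pb q (fun ω => ¬ Ev D n K' w₀ J z M C₀ π ω) ≤ (n + 1) * η₁ := by
    have e1 : Pb q (fun ω => ¬ Ev D n K' w₀ J z M C₀ π ω) ≤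
        Pb q (fun ω => ¬ Fra D n K' M z C₀ ω ∨
        (∃ s ∈ (univ : Finset (Fin k)), ¬ LE D J (w₀ + (π.p s).2 * z) z n (π.p s) ω)) := by
      refine Pool.MIC.Pb_mono_ae hq.nonneg fun ω _ hb => ?_
      by_contra hcon
      push Not at hcon
      exact hb ⟨hcon.1, fun s => hcon.2 s (Finset.mem_univ s)⟩
    have e2 := Pb_or' hq.nonneg (fun ω => ¬ Fra D n K' M z C₀ ω) (fun ω =>
      ∃ s ∈ (univ : Finset (Fin k)), ¬ LE D J (w₀ + (π.p s).2 * z) z n (π.p s) ω)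
    have e3 := hFr J a₀ w₀ z κ D q (by omega) (hκ.trans (min_le_left _ _)) hO
    have e4 := Pool.MIC7.Pb_un hq.nonneg (univ : Finset (Fin k))
      (fun s ω => ¬ LE D J (w₀ + (π.p s).2 * z) z n (π.p s) ω)
    have e5 : ∑ s : Fin k, Pb q (fun ω => ¬ LE D J (w₀ + (π.p s).2 * z) z n (π.p s) ω) ≤
        n * η₁ := by
      refine (Finset.sum_le_sum fun s _ => hLE J a₀ w₀ z M lam gam κ C₁ D q (by omega) hO hUb
        (π.p s) (hP.p_lt s).le (p2_lt hP hz1 s).le).trans ?_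
      rw [Finset.sum_const, card_univ, Fintype.card_fin, nsmul_eq_mul]
      refine mul_le_mul_of_nonneg_right ?_ hη1.le
      exact_mod_cast (k_le hP).trans (Nat.sub_le _ _)
    linarith
  have hPr := pr_pb hq (fun ω => Ev D n K' w₀ J z M C₀ π ω) hEv
  obtain ⟨E, hE⟩ : ∃ E : Set D.Ω, E = {ω | Ev D n K' w₀ J z M C₀ π ω} := ⟨_, rfl⟩
  rw [← hE] at hPr
  have hE0 : 0 < Pr q E := by linarith
  obtain ⟨p, hp⟩ : ∃ p : D.Ω → ℝ, p = cond q (fun ω => ω ∈ E) True := ⟨_, rfl⟩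
  have hpL : IsLaw p := by
    rw [hp]
    exact ⟨fun ω => cond_nonneg hq.nonneg _ _ ω, sum_cond q _ hE0.ne'⟩
  have hpq : ∀ ω, 0 < p ω → 0 < q ω ∧ Ev D n K' w₀ J z M C₀ π ω := by
    intro ω hω
    rw [hp] at hω
    have h1 := (cond_pos_iff hq.nonneg _ _ ω).1 hω
    refine ⟨h1.1, ?_⟩
    have h2 : ω ∈ E := of_eq_true h1.2
    rw [hE] at h2
    exact h2
  have hAX : A₀ K ≤ 2 ^ X := hzd.le.trans (pow_le_pow_right₀ one_le_two (by omega))
  have hyy : ∀ ω, 0 < q ω → Ev D n K' w₀ J z M C₀ π ω → ∀ s,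
      yd D π q J w ω₀ X (D.wn J w ω) s = yr D π q J w ω₀ X (D.wn J w ω) s := fun ω hω v s =>
    yd_yr hO hP hwJ ω₀ hω (v.wn hP hw hz1 s) hAX hz1
  -- the position over the closed label
  obtain ⟨F, hF, hful⟩ := hfull J a₀ w₀ z X k κ κ' D q π (by omega) hzX
    (hκ.trans ((min_le_right _ _).trans (min_le_right _ _))) hκ' hP hO hD r (ix hP r)
    (by rw [ix_add, rk_co hP.inj]) hdir hXM
  obtain ⟨V, hV⟩ : ∃ V, V = hvS D (n - 1) (π.p r).1 (π.p r).2 X (D.Φ (π.p r).1 (π.p r).2) :=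
    ⟨_, rfl⟩
  rw [← hV] at hful
  obtain ⟨G, hG⟩ : ∃ G : D.Ω → D.Γ × (D.Γ × ℕ), G = fun ω => (D.c π.o.1 π.o.2 ω,
    (D.c (π.p r).1 (π.p r).2 ω, D.T ω)) := ⟨_, rfl⟩
  have hful' : X * Real.log 2 - (Cf * z + η / 2 * X) ≤
      CH q (fun ω => V ω (ix hP r)) (fun ω => (off (insert (ix hP r) F) V ω, G ω)) := by
    rw [hG]
    exact hful
  have h0X : (0 : ℝ) < 2 ^ X := by positivity
  have hl2 : Real.log 2 ≤ 1 := by
    have := Real.log_two_lt_d9
    linarith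
  have hl0 : 0 < Real.log 2 := Real.log_pos one_lt_two
  -- two samples
  have two : ∀ ω ω', 0 < p ω → 0 < p ω' →
      (off (insert (ix hP r) F) V ω, G ω) = (off (insert (ix hP r) F) V ω', G ω') →
      ∀ s t : Fin k, s ≤ r → t < r →
        |hz D q J w ω₀ (π.p s) (D.wn J w ω) (π.co t) -
          hz D q J w ω₀ (π.p s) (D.wn J w ω') (π.co t)| ≤
          (Real.exp (C₂ * z) + 2 * A₀ K) / 2 ^ X := by
    intro ω ω' hω hω' e s t hs ht
    obtain ⟨q1, v1⟩ := hpq ω hω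
    obtain ⟨q2, v2⟩ := hpq ω' hω'
    rw [hG, hV] at e
    simp only [Prod.mk.injEq] at e
    have h1 := hlow hKK hz1 hO hP hmon hF q1 q2 v1.1 e.1 e.2.2.1 e.2.2.2 hs ht
    exact low_hz hO hwJ ω₀ q1 q2 (v1.wn hP hw hz1 s) (v2.wn hP hw hz1 s) (hP.co_lt t).le h1
  -- the height and the position
  have h1 : CH p (fun ω => V ω (ix hP r)) (fun ω => (yd D π q J w ω₀ X (D.wn J w ω) r,
      (off (insert (ix hP r) F) V ω, G ω))) ≤ 4 * A₀ K + 4 + c * z := by
    have h2 := CH_le_int hpL.nonneg hpL.sum_one (fun ω => V ω (ix hP r))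
      (fun ω => (yd D π q J w ω₀ X (D.wn J w ω) r, (off (insert (ix hP r) F) V ω, G ω)))
      (fun _ => 2 ^ (c * z) + 2 * A₀ K + 1) (fun ω ω' hω hω' e => by
        obtain ⟨q1, v1⟩ := hpq ω hω
        obtain ⟨q2, v2⟩ := hpq ω' hω'
        have e1 : yd D π q J w ω₀ X (D.wn J w ω) r = yd D π q J w ω₀ X (D.wn J w ω') r :=
          (Prod.ext_iff.1 e).1
        rw [hyy ω q1 v1, hyy ω' q2 v2] at e1
        unfold yr at e1
        have e2 := Pool.PLK.fl_close e1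
        have e3 : |hz D q J w ω₀ (π.p r) (D.wn J w ω) (π.co r) -
            hz D q J w ω₀ (π.p r) (D.wn J w ω') (π.co r)| ≤ 2 ^ (c * z) / 2 ^ X := by
          have g1 : (0 : ℝ) < 2 ^ gl D π.o (π.co r) := by positivity
          have g2 : (0 : ℝ) < 2 ^ gl D (π.p r) (π.co r) := by positivity
          have g3 : (2 : ℝ) ^ gl D (π.p r) (π.co r) ≤ 2 ^ gl D π.o (π.co r) * 2 ^ (c * z) := by
            rw [← pow_add]
            exact pow_le_pow_right₀ one_le_two (hP.self r).2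
          rw [← sub_div, ← mul_sub, abs_div, abs_mul, abs_of_pos g1, abs_of_pos g2,
            div_le_div_iff₀ g2 h0X, one_mul] at e2
          rw [le_div_iff₀ h0X]
          have g4 : 2 ^ gl D π.o (π.co r) * (|hz D q J w ω₀ (π.p r) (D.wn J w ω) (π.co r) -
              hz D q J w ω₀ (π.p r) (D.wn J w ω') (π.co r)| * 2 ^ X) ≤
              2 ^ gl D π.o (π.co r) * 2 ^ (c * z) := by
            rw [← mul_assoc]
            exact e2.trans g3
          exact le_of_mul_le_mul_left g4 g1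
        have e4 := low_zt hO hwJ ω₀ q1 q2 (v1.wn hP hw hz1 r) (v2.wn hP hw hz1 r)
          (hP.co_lt r).le e3
        have e5 := fl_le e4
        rw [hV]
        unfold hvS hdS
        rw [ix_add]
        exact e5)
    rw [Ex_const hpL.sum_one] at h2
    refine h2.trans (log_small (by linarith) (one_le_pow₀ one_le_two) ?_)
    rw [Real.log_pow]
    push_cast
    exact mul_le_of_le_one_right (by positivity) hl2
  -- the lower data
  have hB0 : ∀ z : ℕ, (1 : ℝ) ≤ Real.exp (C₂ * z) := fun z => Pool.GSD.one_le_e (by linarith)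
  have h3 : CH p (fun ω (s : Fin k) => if s < r then yd D π q J w ω₀ X (D.wn J w ω) s
      else 0) (fun ω => (off (insert (ix hP r) F) V ω, G ω)) ≤
      n * (4 * A₀ K + 4 + C₂ * z) := by
    have h2 := CH_le_vec hpL.nonneg hpL.sum_one (fun ω (s : Fin k) =>
      if s < r then yd D π q J w ω₀ X (D.wn J w ω) s else 0)
      (fun ω => (off (insert (ix hP r) F) V ω, G ω))
      (fun _ => Real.exp (C₂ * z) + 2 * A₀ K + 1) (fun ω ω' hω hω' e s => by
        by_cases hs : s < r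
        · obtain ⟨q1, v1⟩ := hpq ω hω
          obtain ⟨q2, v2⟩ := hpq ω' hω'
          rw [if_pos hs, if_pos hs, hyy ω q1 v1, hyy ω' q2 v2]
          unfold yr
          refine fl_le ?_
          have g1 : (0 : ℝ) < 2 ^ gl D π.o (π.co s) := by positivity
          have g2 : (0 : ℝ) < 2 ^ gl D (π.p s) (π.co s) := by positivity
          have g3 : (2 : ℝ) ^ gl D π.o (π.co s) ≤ 2 ^ gl D (π.p s) (π.co s) :=
            pow_le_pow_right₀ one_le_two ((Nat.le_add_right _ _).trans (hP.self s).1)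
          rw [← sub_div, ← mul_sub, abs_div, abs_mul, abs_of_pos g1, abs_of_pos g2]
          refine le_trans ?_ (two ω ω' hω hω' e s s hs.le hs)
          rw [div_le_iff₀ g2, mul_comm]
          exact mul_le_mul_of_nonneg_left g3 (abs_nonneg _)
        · rw [if_neg hs, if_neg hs, sub_self, Int.cast_zero, abs_zero]
          have := hB0 z
          linarith)
    rw [Ex_const hpL.sum_one] at h2
    refine h2.trans ?_
    have h4 := log_small (A := A₀ K) (B := Real.exp (C₂ * z)) (x := C₂ * z) (by linarith) (hB0 z)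
      (by rw [Real.log_exp])
    refine mul_le_mul (by exact_mod_cast (k_le hP).trans (Nat.sub_le _ _)) h4 ?_ hn0
    refine Real.log_nonneg ?_
    have := hB0 z
    linarith
  have h4 : CH p (fun ω (x : Fin (k * k)) =>
      hd D π q J w ω₀ X (min (finProdFinEquiv.symm x).1 r) (D.wn J w ω)
        (π.co (finProdFinEquiv.symm x).2))
      (fun ω => ((fun s : Fin k => if s < r then yd D π q J w ω₀ X (D.wn J w ω) s else 0),
        (off (insert (ix hP r) F) V ω, G ω))) ≤ (n * n) * (4 * A₀ K + 4 + C₂ * z) := by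
    have h2 := CH_le_vec hpL.nonneg hpL.sum_one (fun ω (x : Fin (k * k)) =>
      hd D π q J w ω₀ X (min (finProdFinEquiv.symm x).1 r) (D.wn J w ω)
        (π.co (finProdFinEquiv.symm x).2))
      (fun ω => ((fun s : Fin k => if s < r then yd D π q J w ω₀ X (D.wn J w ω) s else 0),
        (off (insert (ix hP r) F) V ω, G ω)))
      (fun _ => Real.exp (C₂ * z) + 2 * A₀ K + 1) (fun ω ω' hω hω' e x => by
        obtain ⟨s, hs⟩ : ∃ s, s = min (finProdFinEquiv.symm x).1 r := ⟨_, rfl⟩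
        obtain ⟨t, ht⟩ : ∃ t, t = (finProdFinEquiv.symm x).2 := ⟨_, rfl⟩
        have e' := (Prod.ext_iff.1 e).2
        rw [← hs, ← ht]
        have hsr : s ≤ r := by
          rw [hs]
          exact min_le_right _ _
        unfold hd
        by_cases h5 : π.rk (π.co t) < s
        · rw [if_pos h5, if_pos h5]
          rw [rk_co hP.inj] at h5
          exact fl_le (two ω ω' hω hω' e' s t hsr (lt_of_lt_of_le (Fin.lt_def.2 h5) hsr))
        · rw [if_neg h5, if_neg h5, sub_self, Int.cast_zero, abs_zero]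
          have := hB0 z
          linarith)
    rw [Ex_const hpL.sum_one] at h2
    refine h2.trans ?_
    have h4 := log_small (A := A₀ K) (B := Real.exp (C₂ * z)) (x := C₂ * z) (by linarith) (hB0 z)
      (by rw [Real.log_exp])
    refine mul_le_mul ?_ h4 ?_ (by positivity)
    · have hkn : k ≤ n := (k_le hP).trans (Nat.sub_le _ _)
      have h6 : k * k ≤ n * n := Nat.mul_le_mul hkn hkn
      exact_mod_cast h6
    · refine Real.log_nonneg ?_
      have := hB0 z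
      linarith
  have h5 : CH p (fun ω => Zd D π q J w ω₀ X r (D.wn J w ω))
      (fun ω => (off (insert (ix hP r) F) V ω, G ω)) ≤
      (n + n * n) * (4 * A₀ K + 4 + C₂ * z) := by
    have h6 := CH_chain hpL.nonneg (fun ω (x : Fin (k * k)) =>
      hd D π q J w ω₀ X (min (finProdFinEquiv.symm x).1 r) (D.wn J w ω)
        (π.co (finProdFinEquiv.symm x).2))
      (fun ω (s : Fin k) => if s < r then yd D π q J w ω₀ X (D.wn J w ω) s else 0)
      (fun ω => (off (insert (ix hP r) F) V ω, G ω))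
    refine (CH_mono_left hpL.nonneg fun ω ω' hω hω' e => ?_).trans (h6.le.trans (by linarith))
    obtain ⟨q1, v1⟩ := hpq ω hω
    obtain ⟨q2, v2⟩ := hpq ω' hω'
    have e1 := (Prod.ext_iff.1 (Prod.ext_iff.1 e).1).1
    have e2 := (Prod.ext_iff.1 (Prod.ext_iff.1 e).1).2
    have e3 : G ω = G ω' := (Prod.ext_iff.1 (Prod.ext_iff.1 e).2).2
    dsimp only at e1 e2
    rw [hG] at e3
    simp only [Prod.mk.injEq] at e3
    unfold Zd
    rw [Prod.mk.injEq, Prod.mk.injEq]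
    refine ⟨?_, ?_, ?_⟩
    · rw [cl_eq ω₀ do' q1, cl_eq ω₀ do' q2]
      exact e3.1
    · unfold NDat2.wn
      rw [e3.2.2]
    · funext s
      rw [Prod.mk.injEq, Prod.mk.injEq]
      have hsr : min s r ≤ r := min_le_right _ _
      refine ⟨?_, ?_, ?_⟩
      · rw [cl_eq ω₀ (dp _) q1, cl_eq ω₀ (dp _) q2]
        exact det_le hO (hmon _ hsr) (hP.same _ r) (hP.p_lt r).le (p2_lt hP hz1 r).le ω ω' q1 q2
          e3.2.1
      · funext l
        by_cases h7 : π.rk l < (min s r : Fin k)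
        · obtain ⟨t, ht, -⟩ := of_rk (π := π) (l := l) (h7.trans (min s r).2)
          have e4 := congrFun e1 (finProdFinEquiv (s, t))
          rw [Equiv.symm_apply_apply] at e4
          rw [ht] at e4
          exact e4
        · unfold hd
          rw [if_neg h7, if_neg h7]
      · exact congrFun e2 s
  have hh0 : 0 ≤ (4 * A₀ K + 4 + c * z) + (n + n * n) * (4 * A₀ K + 4 + C₂ * z) := by
    have : 0 ≤ C₂ * (z : ℝ) := by positivity
    positivity
  have h7 := Blk.h3_abs hq E hE0 (fun ω => V ω (ix hP r)) (off (insert (ix hP r) F) V) G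
    (fun ω => yd D π q J w ω₀ X (D.wn J w ω) r)
    (fun ω => Zd D π q J w ω₀ X r (D.wn J w ω)) (MV := X * Real.log 2 + 4)
    (err := Cf * z + η / 2 * X + 4) (e₁ := 4 * A₀ K + 4 + c * z)
    (e₂ := (n + n * n) * (4 * A₀ K + 4 + C₂ * z)) hh0 (fun p' hp' hs => by
      have h8 := CH_le_int hp'.nonneg hp'.sum_one (fun ω => V ω (ix hP r)) (fun _ => ())
        (fun _ => 2 ^ (X + 2)) (fun ω ω' hω hω' _ => by
          have g1 := Pool.PLK.hv_le (X := X) (Nat.sub_le n 1)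
            (sd_line hO (hP.p_lt r).le (p2_lt hP hz1 r).le (hs ω hω)) (ix hP r)
          have g2 := Pool.PLK.hv_le (X := X) (Nat.sub_le n 1)
            (sd_line hO (hP.p_lt r).le (p2_lt hP hz1 r).le (hs ω' hω')) (ix hP r)
          rw [← hV] at g1 g2
          have g3 := abs_sub (V ω (ix hP r)) (V ω' (ix hP r))
          have g4 : |V ω (ix hP r) - V ω' (ix hP r)| ≤ 2 ^ (X + 2) := by
            refine g3.trans ((add_le_add g1 g2).trans (le_of_eq ?_))
            ring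
          rw [← Int.cast_abs]
          exact_mod_cast g4)
      rw [Ex_const hp'.sum_one] at h8
      refine h8.trans ?_
      have g5 : Real.log (2 * 2 ^ (X + 2) + 1) ≤ Real.log (2 ^ (X + 4)) := by
        refine Real.log_le_log (by positivity) ?_
        rw [show X + 4 = (X + 2) + 2 by ring, pow_add (2 : ℝ) (X + 2) 2]
        have g6 : (1 : ℝ) ≤ 2 ^ (X + 2) := one_le_pow₀ one_le_two
        have g7 : (2 : ℝ) ^ (X + 2) * 2 ^ 2 = 4 * 2 ^ (X + 2) := by ring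
        rw [g7]
        linarith only [g6]
      rw [Real.log_pow] at g5
      push_cast at g5
      have g8 : ((X : ℝ) + 4) * Real.log 2 = X * Real.log 2 + 4 * Real.log 2 := by ring
      linarith only [g5, g8, hl2])
    (by
      have e1 : X * Real.log 2 + 4 - (Cf * z + η / 2 * X + 4) =
        X * Real.log 2 - (Cf * z + η / 2 * X) := by ring
      rw [e1]
      exact hful') (by rw [← hp]; exact h1) (by rw [← hp]; exact h5)
  refine le_trans ?_ h7
  -- the numbers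
  have k1 : (1 - (n + 1) * η₁) * (X * Real.log 2 + 4) ≤ Pr q E * (X * Real.log 2 + 4) :=
    mul_le_mul_of_nonneg_right hPr (by positivity)
  have k2 : ((n + 1) * η₁) * (X * Real.log 2 + 4) ≤ η / 10 * (5 * X) := by
    refine mul_le_mul hη3 ?_ (by positivity) (by positivity)
    have : (X : ℝ) * Real.log 2 ≤ X * 1 := mul_le_mul_of_nonneg_left hl2 (by linarith)
    linarith
  have k3 : (4 * A₀ K + 4 : ℝ) ≤ (4 * A₀ K + 4) * z := le_mul_of_one_le_right (by linarith) hzr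
  have k4 : (n + n * n : ℝ) * (4 * A₀ K + 4 + C₂ * z) ≤
      (n + n * n) * (4 * A₀ K + 4 + C₂) * z := by
    have g1 : 4 * A₀ K + 4 + C₂ * z ≤ (4 * A₀ K + 4 + C₂) * z := by
      have : (4 * A₀ K + 4 + C₂) * (z : ℝ) = (4 * A₀ K + 4) * z + C₂ * z := by ring
      linarith
    have g2 := mul_le_mul_of_nonneg_left g1 (show (0 : ℝ) ≤ n + n * n by positivity)
    linarith
  have k5 : (5 : ℝ) ≤ 5 * z := by linarith
  rw [hC]
  linarith

/-- **(H3)** of the sheets of a cell. -/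
theorem h3_sh (n K : ℕ) (lam gam : ℕ → ℝ) (C₁ : ℝ) (hC₁ : 1 ≤ C₁) (c : ℕ) : ∃ C : ℝ, 1 ≤ C ∧
    ∀ (M : ℕ) (η : ℝ), 2 ≤ M → 0 < η → ∃ (κ₀ : ℝ) (z₀ : ℕ), 0 < κ₀ ∧
    ∀ (J a₀ w₀ z X N K₀ bb k : ℕ) (κ κ' ι : ℝ) (D : NDat2) (q : D.Ω → ℝ) (π : Pls k)
      (o' a : ℕ × ℕ) (ω₀ : D.Ω), z₀ ≤ z → z ≤ X → κ ≤ κ₀ → κ' ≤ 1 → Plc D n z X c M π →
      D.Ok2 n K J a₀ w₀ z M lam gam κ C₁ q → D.TmU J w₀ z κ₀ q → D.DMA z M κ' q →
      (∀ r s, r ≤ s → (π.p r).1 ≤ (π.p s).1) → (∀ r, Dir D n z X c M π r) →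
      (∀ r, (π.p r).1 + X / z ≤ M) → C * z + η * X ≤ ι * X * Real.log 2 →
      (shA D π q J (w₀ + π.o.2 * z) ω₀ n X N K₀ z bb o' a).H3 ι := by
  obtain ⟨C, hC, h⟩ := h3 n K lam gam C₁ hC₁ c
  refine ⟨C, hC, fun M η hM hη => ?_⟩
  obtain ⟨κ₀, z₀, hκ₀, h⟩ := h M η hM hη
  refine ⟨κ₀, z₀, hκ₀, ?_⟩
  intro J a₀ w₀ z X N K₀ bb k κ κ' ι D q π o' a ω₀ hz hzX hκ hκ' hP hO hU hD hmon hdir hXM hι r
  have h1 := h J a₀ w₀ z X k κ κ' D q π ω₀ hz hzX hκ hκ' hP hO hU hD r (fun s hs => hmon s r hs)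
    (hdir r) (hXM r)
  refine le_trans ?_ h1
  change (1 - ι) * X * Real.log 2 ≤ _
  have e : (1 - ι) * X * Real.log 2 = X * Real.log 2 - ι * X * Real.log 2 := by ring
  rw [e]
  linarith

end Pool.LSH
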