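import Pool.Agent.H12.MICA.EntC
import Pool.Agent.H55.GEN.One

/-!
# The blocks of rows of the height at the centre, abstract form

`b` is the context with the time, `VB` digits of the base, `S` the own leaf, `kap` its shape, `ht`
the height at the centre, `R₁`, `R₂` rows of it, `Y` the position in the other chart, `N₁`, `N₂`
rows of the height in the other chart, `d₁`, `d₂` rows of the natural height.
-/

set_option autoImplicit false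

namespace Pool.LSH.Blk

open Finset
open Pool.Agent.H49.Ent Pool.Agent.H32.Dense Pool.STK
open Pool.KAF (Pr)

variable {Ω : Type} [Fintype Ω]

theorem blk_abs {β ℬ σ 𝒦 χ ρ 𝒴 μ ν : Type} {q : Ω → ℝ} (hq : IsLaw q) (E : Set Ω)
    (hE : 0 < Pr q E) (b : Ω → β) (VB : Ω → ℬ) (S : Ω → σ) (kap : Ω → 𝒦) (ht : Ω → χ)
    (R₁ R₂ : Ω → ρ) (Y : Ω → 𝒴) (N₁ N₂ : Ω → μ) (d₁ d₂ : Ω → ν)
    (hS : Det q (fun ω => (S ω, b ω)) kap) (hR₁ : Det q ht R₁) (hR₂ : Det q ht R₂)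
    {MB κ r c₁ c₂ c₃ c₄ Q : ℝ}
    (hMB : ∀ p : Ω → ℝ, IsLaw p → (∀ ω, 0 < p ω → 0 < q ω) → CH p VB (fun _ => ()) ≤ MB)
    (hful : MB - κ ≤ CH q VB (fun ω => (S ω, b ω)))
    (hht : CH q ht (fun ω => (S ω, b ω)) ≤ r)
    (h1 : CH (cond q (fun ω => ω ∈ E) True) Y (fun ω => (VB ω, b ω)) ≤ c₁)
    (h2 : CH (cond q (fun ω => ω ∈ E) True) N₁ (fun ω => (R₁ ω, (Y ω, (kap ω, b ω)))) ≤ c₂)
    (h3 : CH (cond q (fun ω => ω ∈ E) True) R₂ (fun ω => (N₂ ω, (Y ω, (kap ω, b ω)))) ≤ c₂)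
    (h4 : CH (cond q (fun ω => ω ∈ E) True) d₁ (fun ω => (N₁ ω, (VB ω, b ω))) ≤ c₃)
    (h5 : CH (cond q (fun ω => ω ∈ E) True) N₂ (fun ω => (d₂ ω, (VB ω, b ω))) ≤ c₄)
    (h6 : CH (cond q (fun ω => ω ∈ E) True) d₂ (fun ω => (d₁ ω, (VB ω, b ω))) ≤ Q) :
    CH (cond q (fun ω => ω ∈ E) True) R₂ (fun ω => (R₁ ω, (kap ω, b ω))) ≤
      Q + 2 * c₁ + 2 * c₂ + c₃ + c₄ + (κ + r + Real.log 2) / Pr q E := by
  obtain ⟨p, hp⟩ : ∃ p : Ω → ℝ, p = cond q (fun ω => ω ∈ E) True := ⟨_, rfl⟩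
  have hq0 := hq.nonneg
  have hpL : IsLaw p := by
    rw [hp]
    exact ⟨fun ω => cond_nonneg hq0 _ _ ω, sum_cond q _ hE.ne'⟩
  have hpq : ∀ ω, 0 < p ω → 0 < q ω := by
    intro ω hω
    rw [hp] at hω
    exact ((cond_pos_iff hq0 _ _ ω).1 hω).1
  rw [← hp] at h1 h2 h3 h4 h5 h6 ⊢
  have hp0 := hpL.nonneg
  -- the digits of the base are full given the height at the centre and the own shape
  have a1 : CH q VB (fun ω => (S ω, b ω)) - CH q ht (fun ω => (S ω, b ω)) ≤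
      CH q VB (fun ω => (ht ω, (kap ω, b ω))) := by
    have e1 := CH_le_add hq0 VB ht (fun ω => (S ω, b ω))
    have e2 : CH q VB (fun ω => (ht ω, (S ω, b ω))) ≤
        CH q VB (fun ω => (ht ω, (kap ω, b ω))) := by
      refine CH_mono_cond hq0 fun ω ω' hω hω' e => ?_
      have f1 := Prod.ext_iff.1 e
      have f2 := Prod.ext_iff.1 f1.2
      exact Prod.ext f1.1 (Prod.ext (hS ω ω' hω hω' f1.2) f2.2)
    linarith
  have hM : ∀ p' : Ω → ℝ, IsLaw p' → (∀ ω, 0 < p' ω → 0 < q ω) →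
      CH p' VB (fun ω => (ht ω, (kap ω, b ω))) ≤ MB := by
    intro p' hp' hs
    exact (CH_mono_cond hp'.nonneg fun _ _ _ _ _ => rfl).trans (hMB p' hp' hs)
  have a2 := Pool.DY1.ev_ge hq E VB (fun ω => (ht ω, (kap ω, b ω))) MB hE hM
  rw [← hp] at a2
  have a3 : (MB - CH q VB (fun ω => (ht ω, (kap ω, b ω))) + Real.log 2) / Pr q E ≤
      (κ + r + Real.log 2) / Pr q E := div_le_div_of_nonneg_right (by linarith) hE.le
  have a4 : CH p VB (fun ω => (ht ω, (kap ω, b ω))) ≤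
      CH p VB (fun ω => (R₂ ω, (R₁ ω, (kap ω, b ω)))) := by
    refine CH_mono_cond hp0 fun ω ω' hω hω' e => ?_
    have f1 := Prod.ext_iff.1 e
    exact Prod.ext (hR₂ ω ω' (hpq ω hω) (hpq ω' hω') f1.1)
      (Prod.ext (hR₁ ω ω' (hpq ω hω) (hpq ω' hω') f1.1) f1.2)
  have a5 : CH p VB (fun ω => (R₁ ω, (kap ω, b ω))) ≤ MB :=
    (CH_mono_cond hp0 fun _ _ _ _ _ => rfl).trans (hMB p hpL hpq)
  have a6 := Pool.MicA.mi_symm hp0 R₂ VB (fun ω => (R₁ ω, (kap ω, b ω)))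
  -- the row given the digits of the base
  have b1 := CH_le_add hp0 R₂ d₂ (fun ω => (VB ω, (R₁ ω, (kap ω, b ω))))
  have b2 := CH_le_add hp0 d₂ d₁ (fun ω => (VB ω, (R₁ ω, (kap ω, b ω))))
  have b3 := CH_le_add hp0 d₁ Y (fun ω => (VB ω, (R₁ ω, (kap ω, b ω))))
  have b4 := CH_le_add hp0 d₁ N₁ (fun ω => (Y ω, (VB ω, (R₁ ω, (kap ω, b ω)))))
  have b5 := CH_le_add hp0 R₂ Y (fun ω => (d₂ ω, (VB ω, (R₁ ω, (kap ω, b ω)))))
  have b6 := CH_le_add hp0 R₂ N₂ (fun ω => (Y ω, (d₂ ω, (VB ω, (R₁ ω, (kap ω, b ω))))))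
  have c1 : CH p Y (fun ω => (VB ω, (R₁ ω, (kap ω, b ω)))) ≤ CH p Y (fun ω => (VB ω, b ω)) := by
    refine CH_mono_cond hp0 fun ω ω' _ _ e => ?_
    simp only [Prod.mk.injEq] at e ⊢
    exact ⟨e.1, e.2.2.2⟩
  have c2 : CH p N₁ (fun ω => (Y ω, (VB ω, (R₁ ω, (kap ω, b ω))))) ≤
      CH p N₁ (fun ω => (R₁ ω, (Y ω, (kap ω, b ω)))) := by
    refine CH_mono_cond hp0 fun ω ω' _ _ e => ?_
    simp only [Prod.mk.injEq] at e ⊢
    exact ⟨e.2.2.1, e.1, e.2.2.2⟩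
  have c3 : CH p d₁ (fun ω => (N₁ ω, (Y ω, (VB ω, (R₁ ω, (kap ω, b ω)))))) ≤
      CH p d₁ (fun ω => (N₁ ω, (VB ω, b ω))) := by
    refine CH_mono_cond hp0 fun ω ω' _ _ e => ?_
    simp only [Prod.mk.injEq] at e ⊢
    exact ⟨e.1, e.2.2.1, e.2.2.2.2.2⟩
  have c4 : CH p d₂ (fun ω => (d₁ ω, (VB ω, (R₁ ω, (kap ω, b ω))))) ≤
      CH p d₂ (fun ω => (d₁ ω, (VB ω, b ω))) := by
    refine CH_mono_cond hp0 fun ω ω' _ _ e => ?_
    simp only [Prod.mk.injEq] at e ⊢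
    exact ⟨e.1, e.2.1, e.2.2.2.2⟩
  have c5 : CH p Y (fun ω => (d₂ ω, (VB ω, (R₁ ω, (kap ω, b ω))))) ≤
      CH p Y (fun ω => (VB ω, b ω)) := by
    refine CH_mono_cond hp0 fun ω ω' _ _ e => ?_
    simp only [Prod.mk.injEq] at e ⊢
    exact ⟨e.2.1, e.2.2.2.2⟩
  have c6 : CH p N₂ (fun ω => (Y ω, (d₂ ω, (VB ω, (R₁ ω, (kap ω, b ω)))))) ≤
      CH p N₂ (fun ω => (d₂ ω, (VB ω, b ω))) := by
    refine CH_mono_cond hp0 fun ω ω' _ _ e => ?_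
    simp only [Prod.mk.injEq] at e ⊢
    exact ⟨e.2.1, e.2.2.1, e.2.2.2.2.2⟩
  have c7 : CH p R₂ (fun ω => (N₂ ω, (Y ω, (d₂ ω, (VB ω, (R₁ ω, (kap ω, b ω))))))) ≤
      CH p R₂ (fun ω => (N₂ ω, (Y ω, (kap ω, b ω)))) := by
    refine CH_mono_cond hp0 fun ω ω' _ _ e => ?_
    simp only [Prod.mk.injEq] at e ⊢
    exact ⟨e.1, e.2.1, e.2.2.2.2.2⟩
  linarith

end Pool.LSH.Blk
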