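import Pool.Agent.H12.MICA.Ent2

/-!
# Rows of the height: conversions, all laws

The conversions of `Pool.MicA.conv` for all the laws with support in the support of the law of the
cell, and for rows.
-/

set_option autoImplicit false

namespace Pool.LSH.Blk

open Finset MvPolynomial
open Pool.Agent.H49.Ent Pool.Agent.H32.Dense Pool.STK Pool.STAT Pool.MIC Pool.MicA
open Pool.BFL (Pl Pb)

/-! ### Integers -/

theorem div_near (x k : ℤ) {m : ℤ} (hm : 0 < m) :
    x / m + k / m ≤ (x + k) / m ∧ (x + k) / m ≤ x / m + k / m + 1 := by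
  have h1 := Int.mul_ediv_add_emod x m
  have h2 := Int.emod_nonneg x hm.ne'
  have h3 := Int.emod_lt_of_pos x hm
  have k1 := Int.mul_ediv_add_emod k m
  have k2 := Int.emod_nonneg k hm.ne'
  have k3 := Int.emod_lt_of_pos k hm
  constructor
  · rw [Int.le_ediv_iff_mul_le hm]
    nlinarith
  · have h4 : (x + k) / m < x / m + k / m + 2 := by
      rw [Int.ediv_lt_iff_lt_mul hm]
      nlinarith
    omega

/-- Two integers with near quotients. -/
theorem row_near {x x' k : ℤ} {m : ℤ} (hm : 0 < m) (h : x / m = x' / m) :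
    |(((x + k) / m - (x' + k) / m : ℤ) : ℝ)| ≤ 1 := by
  have h1 := div_near x k hm
  have h2 := div_near x' k hm
  rw [h] at h1
  rw [abs_le]
  have a1 : (-1 : ℤ) ≤ (x + k) / m - (x' + k) / m := by omega
  have a2 : (x + k) / m - (x' + k) / m ≤ 1 := by omega
  constructor <;> exact_mod_cast by first | exact a1 | exact a2

theorem log_three : Real.log 3 ≤ 2 := by
  have h1 : Real.log 3 ≤ Real.log 7 := Real.log_le_log (by norm_num) (by norm_num)
  have h2 : Real.log 3 ≤ Real.log 4 := Real.log_le_log (by norm_num) (by norm_num)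
  have h3 : Real.log 4 = 2 * Real.log 2 := by
    rw [show (4 : ℝ) = 2 ^ 2 by norm_num, Real.log_pow]
    norm_num
  have h4 := Real.log_two_lt_d9
  linarith

/-! ### The digits of the base -/

section

variable {D : NDat2} {n K J a₀ w₀ z M : ℕ} {lam gam : ℕ → ℝ} {κ C₁ : ℝ} {q p : D.Ω → ℝ}

theorem vd_card (hO : D.Ok2 n K J a₀ w₀ z M lam gam κ C₁ q) {i j : ℕ} (hi : i ≤ M) (hj : j ≤ M)
    (hp : IsLaw p) (hpq : ∀ ω, 0 < p ω → 0 < q ω) (X : ℕ) {β : Type} (W : D.Ω → β) :
    CH p (D.vd n i j X) W ≤ ((n - 1 : ℕ) : ℝ) * (X * Real.log 2 + 3) := by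
  have h2 : (1 : ℝ) ≤ 2 ^ X := one_le_pow₀ one_le_two
  have h1 := CH_le_vec hp.nonneg hp.sum_one (D.vd n i j X) W (fun _ => 2 * 2 ^ X + 1)
    (fun ω ω' hω hω' _ l => by
      rw [vd_eq, vd_eq]
      refine floor_near ?_
      rw [← mul_sub, abs_mul, abs_of_pos (by positivity)]
      have a1 := zs_le hO hi hj (hpq ω hω) (l := (l : ℕ) + 1) (by omega) (by have := l.2; omega)
      have a2 := zs_le hO hi hj (hpq ω' hω') (l := (l : ℕ) + 1) (by omega)
        (by have := l.2; omega)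
      have a3 := abs_sub (zs D i j ω ((l : ℕ) + 1)) (zs D i j ω' ((l : ℕ) + 1))
      nlinarith)
  rw [Ex_const hp.sum_one] at h1
  refine h1.trans (mul_le_mul_of_nonneg_left ?_ (Nat.cast_nonneg _))
  have h3 : Real.log (2 * (2 * 2 ^ X + 1) + 1) ≤ Real.log (7 * 2 ^ X) :=
    Real.log_le_log (by positivity) (by linarith)
  rw [Real.log_mul (by norm_num) (by positivity), Real.log_pow] at h3
  have h4 := log_seven
  linarith

/-- Rows of the exact height. -/
theorem nuA_row {i j X r : ℕ} (hr : r ≤ X) (ω : D.Ω) :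
    nuA D n i j X ω / 2 ^ (X - r) = ⌊(2 : ℝ) ^ r * zt D i j ω n⌋ :=
  (fl_coarse hr _).symm

end

/-- **The conversions.** -/
theorem few (n K : ℕ) : ∃ C : ℝ, 1 ≤ C ∧
    ∀ {D : NDat2} {J a₀ w₀ z M i j : ℕ} {lam gam : ℕ → ℝ} {κ C₁ : ℝ} {q p : D.Ω → ℝ},
      D.Ok2 n K J a₀ w₀ z M lam gam κ C₁ q → i ≤ M → j ≤ M → 1 ≤ n → IsLaw p →
      (∀ ω, 0 < p ω → 0 < q ω) → ∀ V X : ℕ, X ≤ V →
      CH p (Yp D n z i j X) (fun ω => (D.vd n i j V ω, (D.c i j ω, D.T ω))) ≤ C ∧
      (∀ ρ r : ℕ, ρ ≤ V → ρ ≤ r → r ≤ ρ + z →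
        CH p (fun ω => ⌊(2 : ℝ) ^ r * zt D i j ω n⌋) (fun ω => (D.nd n i j ρ ω,
          (D.vd n i j V ω, (D.c i j ω, D.T ω)))) ≤ z + C ∧
        CH p (D.nd n i j ρ) (fun ω => (⌊(2 : ℝ) ^ r * zt D i j ω n⌋,
          (D.vd n i j V ω, (D.c i j ω, D.T ω)))) ≤ C) := by
  obtain ⟨C, hC, h⟩ := charts n K
  have hl2 : Real.log 2 ≤ 1 := by
    have := Real.log_two_lt_d9
    linarith
  have hl0 : 0 ≤ Real.log (8 * (C * C) + 3) := Real.log_nonneg (by nlinarith)
  have hCC : C ≤ C * C := le_mul_of_one_le_left (by linarith) hC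
  have hn0 : (0 : ℝ) ≤ ((n - 1 : ℕ) : ℝ) := Nat.cast_nonneg _
  refine ⟨((n - 1 : ℕ) + 1 : ℝ) * (Real.log (8 * (C * C) + 3) + 1), ?_, ?_⟩
  · exact one_le_mul_of_one_le_of_one_le (by linarith) (by linarith)
  intro D J a₀ w₀ z M i j lam gam κ C₁ q p hO hi hj hn hp hpq V X hXV
  have hz1 : (1 : ℝ) ≤ 2 ^ z := one_le_pow₀ one_le_two
  have hlogC : Real.log (2 * (C + 1) + 1) ≤ Real.log (8 * (C * C) + 3) :=
    Real.log_le_log (by linarith) (by nlinarith)
  have hlogCC : Real.log (2 * (C * C + 1) + 1) ≤ Real.log (8 * (C * C) + 3) :=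
    Real.log_le_log (by nlinarith) (by nlinarith)
  have hend : Real.log (8 * (C * C) + 3) ≤
      ((n - 1 : ℕ) + 1 : ℝ) * (Real.log (8 * (C * C) + 3) + 1) := by nlinarith
  refine ⟨?_, ?_⟩
  · have h2 : (0 : ℝ) < 2 ^ X := by positivity
    have h3 : CH p (Yp D n z i j X) (fun ω => (D.vd n i j V ω, (D.c i j ω, D.T ω))) ≤
        CH p (fun ω (l : Fin (n - 1)) => (Yp D n z i j X ω l : ℤ))
          (fun ω => (D.vd n i j V ω, (D.c i j ω, D.T ω))) := by
      refine CH_mono_left hp.nonneg fun ω ω' _ _ e => ?_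
      funext l
      have h4 : ((Yp D n z i j X ω l : ℕ) : ℤ) = (Yp D n z i j X ω' l : ℕ) :=
        congrFun (Prod.ext_iff.1 e).1 l
      exact_mod_cast h4
    refine h3.trans ?_
    have h4 := CH_le_vec hp.nonneg hp.sum_one
      (fun ω (l : Fin (n - 1)) => (Yp D n z i j X ω l : ℤ))
      (fun ω => (D.vd n i j V ω, (D.c i j ω, D.T ω))) (fun _ => C + 1)
      (fun ω ω' hω hω' e l => by
        simp only [Prod.mk.injEq] at e
        obtain ⟨e1, e2, e3⟩ := e
        have h5 := (h hO hi hj (hpq ω hω) (hpq ω' hω') e2 e3 (l := (l : ℕ) + 1)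
          (ε := 1 / 2 ^ X) (by omega) (by have := l.2; omega) (by positivity)).1
          (fun r r1 r2 => vd_zs (vd_coarse hXV e1) r1 (by have := l.2; omega))
        have u1 := up_mem (z := z) (zt_le hO hi hj (hpq ω hω) (l := (l : ℕ) + 1)
          (by have := l.2; omega))
        have u2 := up_mem (z := z) (zt_le hO hi hj (hpq ω' hω') (l := (l : ℕ) + 1)
          (by have := l.2; omega))
        have e4 : ((Yp D n z i j X ω l : ℕ) : ℤ) = ⌊(2 : ℝ) ^ X * up z (zt D i j ω (l + 1))⌋ :=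
          Int.natCast_floor_eq_floor (mul_nonneg h2.le u1.1)
        have e5 : ((Yp D n z i j X ω' l : ℕ) : ℤ) = ⌊(2 : ℝ) ^ X * up z (zt D i j ω' (l + 1))⌋ :=
          Int.natCast_floor_eq_floor (mul_nonneg h2.le u2.1)
        rw [e4, e5]
        refine dig_near ?_
        have e6 : up z (zt D i j ω (l + 1)) - up z (zt D i j ω' (l + 1)) =
            (zt D i j ω (l + 1) - zt D i j ω' (l + 1)) / (4 * 2 ^ z) := by
          unfold up
          ring
        rw [e6, abs_div, abs_of_pos (show (0 : ℝ) < 4 * 2 ^ z by positivity)]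
        refine (div_le_self (abs_nonneg _) (by linarith)).trans h5)
    rw [Ex_const hp.sum_one] at h4
    refine h4.trans ?_
    have h5 : ((n - 1 : ℕ) : ℝ) * Real.log (2 * (C + 1) + 1) ≤
        ((n - 1 : ℕ) : ℝ) * Real.log (8 * (C * C) + 3) := mul_le_mul_of_nonneg_left hlogC hn0
    nlinarith
  · intro ρ r hρV hρr hrz
    have hρ0 : (0 : ℝ) < 2 ^ ρ := by positivity
    have hr0 : (0 : ℝ) < 2 ^ r := by positivity
    refine ⟨?_, ?_⟩
    · have h4 := CH_le_int hp.nonneg hp.sum_one (fun ω => ⌊(2 : ℝ) ^ r * zt D i j ω n⌋)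
        (fun ω => (D.nd n i j ρ ω, (D.vd n i j V ω, (D.c i j ω, D.T ω))))
        (fun _ => C * 2 ^ z + 1)
        (fun ω ω' hω hω' e => by
          simp only [Prod.mk.injEq] at e
          obtain ⟨e0, e1, e2, e3⟩ := e
          have h5 := (h hO hi hj (hpq ω hω) (hpq ω' hω') e2 e3 (l := n) (ε := 1 / 2 ^ ρ) hn
            le_rfl (by positivity)).1 (fun s r1 r2 => by
              rcases Nat.lt_or_ge s n with h6 | h6
              · exact vd_zs (vd_coarse hρV e1) r1 h6
              · obtain rfl : s = n := by omega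
                rw [nd_eq, nd_eq] at e0
                exact dig_eq e0)
          refine dig_near (h5.trans ?_)
          rw [mul_assoc]
          refine mul_le_mul_of_nonneg_left ?_ (by linarith)
          rw [mul_one_div, div_le_div_iff₀ hρ0 hr0, one_mul, ← pow_add]
          exact pow_le_pow_right₀ one_le_two (by omega))
      rw [Ex_const hp.sum_one] at h4
      refine h4.trans ?_
      have h6 : Real.log (2 * (C * 2 ^ z + 1) + 1) ≤ Real.log (2 ^ z * (8 * (C * C) + 3)) :=
        Real.log_le_log (by positivity) (by nlinarith)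
      rw [Real.log_mul (by positivity) (by positivity), Real.log_pow] at h6
      have h7 : (z : ℝ) * Real.log 2 ≤ z * 1 := mul_le_mul_of_nonneg_left hl2 (Nat.cast_nonneg z)
      linarith
    · have h4 := CH_le_int hp.nonneg hp.sum_one (D.nd n i j ρ)
        (fun ω => (⌊(2 : ℝ) ^ r * zt D i j ω n⌋, (D.vd n i j V ω, (D.c i j ω, D.T ω))))
        (fun _ => C * C + 1)
        (fun ω ω' hω hω' e => by
          simp only [Prod.mk.injEq] at e
          obtain ⟨e0, e1, e2, e3⟩ := e
          have g1 : (1 : ℝ) / 2 ^ r ≤ C * (1 / 2 ^ ρ) := by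
            have g2 : (1 : ℝ) / 2 ^ r ≤ 1 / 2 ^ ρ :=
              one_div_le_one_div_of_le hρ0 (pow_le_pow_right₀ one_le_two hρr)
            exact g2.trans (le_mul_of_one_le_left (by positivity) hC)
          have h5 := (h hO hi hj (hpq ω hω) (hpq ω' hω') e2 e3 (l := n) (ε := C * (1 / 2 ^ ρ)) hn
            le_rfl (by positivity)).2 (fun s r1 r2 => by
              rcases Nat.lt_or_ge s n with h6 | h6
              · exact (h hO hi hj (hpq ω hω) (hpq ω' hω') e2 e3 (l := s) (ε := 1 / 2 ^ ρ) r1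
                  h6.le (by positivity)).1 fun t t1 t2 => vd_zs (vd_coarse hρV e1) t1 (by omega)
              · obtain rfl : s = n := by omega
                exact (dig_eq e0).trans g1)
          rw [nd_eq, nd_eq]
          refine dig_near (h5.trans (le_of_eq ?_))
          ring)
      rw [Ex_const hp.sum_one] at h4
      exact h4.trans (hlogCC.trans hend)

end Pool.LSH.Blk
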