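import Pool.Agent.H25.LSH.Abs
import Pool.Agent.H25.LSH.Few
import Pool.Agent.H12.LSH.Shd

/-!
# The blocks of rows of the height at the centre are not full

`blk`: the general block. `h5`: hypothesis (H5) of the sheets of a cell.
-/

set_option autoImplicit false

namespace Pool.LSH

open Finset MvPolynomial
open Pool.Agent.H49.Ent Pool.Agent.H32.Dense Pool.STK Pool.STAT Pool.MIC Pool.MicA
open Pool.BFL (Pl Pb)
open Pool.KAF (Pr)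

theorem Pr_Pb {Ω : Type} [Fintype Ω] (q : Ω → ℝ) (E : Set Ω) :
    Pr q E = Pb q (fun ω => ω ∈ E) := by
  classical
  unfold Pool.KAF.Pr law Pool.BFL.Pb
  refine Finset.sum_congr rfl fun ω _ => ?_
  by_cases h : ω ∈ E <;> simp [h]

/-- **A block of rows**, on any event. -/
theorem blk (n K K₀ B : ℕ) (hn : 1 ≤ n) (hB : 1 ≤ B) (hK : K * (K + 1) ^ n ≤ K₀) :
    ∃ C : ℝ, 1 ≤ C ∧
    ∀ {D : NDat2} {J a₀ w₀ z M i j i' j' X U bb : ℕ} {lam gam : ℕ → ℝ} {κ C₁ h ϖ κ' : ℝ}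
      {q : D.Ω → ℝ}, D.Ok2 n K J a₀ w₀ z M lam gam κ C₁ q → D.NF n z M B gam h C₁ ϖ q →
      0 ≤ h → h ≤ 1 → 1 ≤ z → 1 ≤ X → X ≤ U * z → i + B * U ≤ M →
      (U : ℝ) ≤ gam n * (M - j) → j ≤ M → i' ≤ M → j' ≤ M → Fat D n i j i' j' →
      D.g i j n + X ≤ D.g i' j' n → 1 ≤ bb →
      ((n - 1 : ℕ) : ℝ) * (((B * (U * z) : ℕ) : ℝ) * Real.log 2) - κ' * z ≤
        CH q (D.vd n i j (B * (U * z))) (fun ω => (D.s i' j' ω, (D.c i j ω, D.T ω))) →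
      ∀ r₁ r₂ : ℕ, r₁ ≤ r₂ → r₂ ≤ X → ∀ E : Set D.Ω, ϖ ≤ Pr q E → 0 < Pr q E →
      CH (cond q (fun ω => ω ∈ E) True)
        (fun ω => htA D n K₀ z i j i' j' X bb ω / 2 ^ (X - r₂))
        (fun ω => (htA D n K₀ z i j i' j' X bb ω / 2 ^ (X - r₁),
          (D.c i j ω, (thr D J (w₀ + j * z) ω, kpA D n K₀ z i j i' j' X bb ω)))) ≤
        (1 - h) * ((r₂ : ℝ) - r₁) * Real.log 2 + (C + C₁) * z +
          (κ' * z + C * bb + C * X * Pb q (fun ω => ¬ Gdk D n K₀ z i j i' j' X bb ω) + C) /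
            Pr q E := by
  classical
  obtain ⟨Ca, hCa, hfew⟩ := Blk.few n K
  obtain ⟨Cb, hCb, hht⟩ := ht_few n K K₀ hn hK
  have hn0 : (0 : ℝ) ≤ ((n - 1 : ℕ) : ℝ) := Nat.cast_nonneg _
  refine ⟨4 * Ca + Cb + 3 * ((n - 1 : ℕ) : ℝ) + 10, by linarith, ?_⟩
  intro D J a₀ w₀ z M i j i' j' X U bb lam gam κ C₁ h ϖ κ' q hO hNF hh0 hh1 hz hX hXU hiB hUg hj
    hi' hj' hF hg hbb hful r₁ r₂ hr hrX E hEϖ hE
  have hq := hO.isLaw
  have hUB : U ≤ B * U := Nat.le_mul_of_pos_left U hB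
  have hi : i ≤ M := by omega
  have hl2 : Real.log 2 ≤ 1 := by
    have := Real.log_two_lt_d9
    linarith
  have hl0 : 0 < Real.log 2 := Real.log_pos one_lt_two
  have hzR : (1 : ℝ) ≤ z := by exact_mod_cast hz
  obtain ⟨V, hV⟩ : ∃ V, V = B * (U * z) := ⟨_, rfl⟩
  rw [← hV] at hful
  have hXV : X ≤ V := by
    rw [hV]
    exact hXU.trans (Nat.le_mul_of_pos_left _ hB)
  obtain ⟨ρ₁, hρ₁⟩ : ∃ ρ₁, ρ₁ = r₁ / z := ⟨_, rfl⟩
  obtain ⟨ρ₂, hρ₂⟩ : ∃ ρ₂, ρ₂ = r₂ / z := ⟨_, rfl⟩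
  have a1 : ρ₁ * z ≤ r₁ := by rw [hρ₁]; exact Nat.div_mul_le_self _ _
  have a2 : ρ₂ * z ≤ r₂ := by rw [hρ₂]; exact Nat.div_mul_le_self _ _
  have a3 : r₁ ≤ ρ₁ * z + z := by
    have := Nat.div_add_mod r₁ z
    have h2 := Nat.mod_lt r₁ (show 0 < z by omega)
    rw [hρ₁]
    rw [mul_comm z] at this
    omega
  have a4 : r₂ ≤ ρ₂ * z + z := by
    have := Nat.div_add_mod r₂ z
    have h2 := Nat.mod_lt r₂ (show 0 < z by omega)
    rw [hρ₂]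
    rw [mul_comm z] at this
    omega
  have a5 : ρ₁ ≤ ρ₂ := by
    rw [hρ₁, hρ₂]
    exact Nat.div_le_div_right hr
  have a6 : ρ₂ ≤ U := by
    have h1 : ρ₂ * z ≤ U * z := a2.trans (hrX.trans hXU)
    exact Nat.le_of_mul_le_mul_right h1 (by omega)
  obtain ⟨p, hp⟩ : ∃ p : D.Ω → ℝ, p = cond q (fun ω => ω ∈ E) True := ⟨_, rfl⟩
  have hpL : IsLaw p := by
    rw [hp]
    exact ⟨fun ω => cond_nonneg hq.nonneg _ _ ω, sum_cond q _ hE.ne'⟩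
  have hpq : ∀ ω, 0 < p ω → 0 < q ω := by
    intro ω hω
    rw [hp] at hω
    exact ((cond_pos_iff hq.nonneg _ _ ω).1 hω).1
  obtain ⟨f1, f2⟩ := hfew hO hi hj hn hpL hpq V X hXV
  obtain ⟨-, f3⟩ := f2 (ρ₁ * z) r₁ (by omega) a1 a3
  obtain ⟨f4, -⟩ := f2 (ρ₂ * z) r₂ (by omega) a2 a4
  obtain ⟨P, hP⟩ : ∃ P, P = Pb q (fun ω => ¬ Gdk D n K₀ z i j i' j' X bb ω) := ⟨_, rfl⟩
  have hP0 : 0 ≤ P := by
    rw [hP]
    exact Pool.MIC.Pb_nonneg hq.nonneg _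
  have g1 := hht hO hi hj hi' hj' hF hX hg hbb
  rw [← hP] at g1 ⊢
  -- the rows of the height in the two charts
  have hk : ∀ ω, nuA D n i j X ω = htA D n K₀ z i j i' j' X bb ω +
      ⌊(2 : ℝ) ^ X * eval (fun l => (Yp D n z i j X ω l : ℝ) / 2 ^ X)
        (kpA D n K₀ z i j i' j' X bb ω)⌋ := by
    intro ω
    unfold htA
    ring
  have hpow : ∀ s : ℕ, (0 : ℤ) < 2 ^ s := fun s => by positivity
  have e1 : CH p (fun ω => ⌊(2 : ℝ) ^ r₁ * zt D i j ω n⌋)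
      (fun ω => (htA D n K₀ z i j i' j' X bb ω / 2 ^ (X - r₁), (Yp D n z i j X ω,
        (kpA D n K₀ z i j i' j' X bb ω, (D.c i j ω, D.T ω))))) ≤ 2 := by
    have h4 := CH_le_int hpL.nonneg hpL.sum_one (fun ω => ⌊(2 : ℝ) ^ r₁ * zt D i j ω n⌋)
      (fun ω => (htA D n K₀ z i j i' j' X bb ω / 2 ^ (X - r₁), (Yp D n z i j X ω,
        (kpA D n K₀ z i j i' j' X bb ω, (D.c i j ω, D.T ω))))) (fun _ => 1)
      (fun ω ω' _ _ e => by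
        simp only [Prod.mk.injEq] at e
        obtain ⟨u1, u2, u3, -⟩ := e
        rw [← Blk.nuA_row (hr.trans hrX) ω, ← Blk.nuA_row (hr.trans hrX) ω', hk ω, hk ω', u2, u3]
        exact Blk.row_near (hpow _) u1)
    rw [Ex_const hpL.sum_one] at h4
    refine h4.trans (le_trans (le_of_eq ?_) Blk.log_three)
    norm_num
  have e2 : CH p (fun ω => htA D n K₀ z i j i' j' X bb ω / 2 ^ (X - r₂))
      (fun ω => (⌊(2 : ℝ) ^ r₂ * zt D i j ω n⌋, (Yp D n z i j X ω,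
        (kpA D n K₀ z i j i' j' X bb ω, (D.c i j ω, D.T ω))))) ≤ 2 := by
    have h4 := CH_le_int hpL.nonneg hpL.sum_one
      (fun ω => htA D n K₀ z i j i' j' X bb ω / 2 ^ (X - r₂))
      (fun ω => (⌊(2 : ℝ) ^ r₂ * zt D i j ω n⌋, (Yp D n z i j X ω,
        (kpA D n K₀ z i j i' j' X bb ω, (D.c i j ω, D.T ω))))) (fun _ => 1)
      (fun ω ω' _ _ e => by
        simp only [Prod.mk.injEq] at e
        obtain ⟨u1, u2, u3, -⟩ := e
        rw [← Blk.nuA_row hrX ω, ← Blk.nuA_row hrX ω'] at u1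
        have k1 : ∀ ω, htA D n K₀ z i j i' j' X bb ω = nuA D n i j X ω +
            -⌊(2 : ℝ) ^ X * eval (fun l => (Yp D n z i j X ω l : ℝ) / 2 ^ X)
              (kpA D n K₀ z i j i' j' X bb ω)⌋ := fun ω => rfl
        rw [k1 ω, k1 ω', u2, u3]
        exact Blk.row_near (hpow _) u1)
    rw [Ex_const hpL.sum_one] at h4
    refine h4.trans (le_trans (le_of_eq ?_) Blk.log_three)
    norm_num
  -- nonfull rows
  have e3 : CH p (D.nd n i j (ρ₂ * z)) (fun ω => (D.nd n i j (ρ₁ * z) ω,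
      (D.vd n i j V ω, (D.c i j ω, D.T ω)))) ≤
      (1 - h) * (((ρ₂ : ℝ) - ρ₁) * z) * Real.log 2 + C₁ * z := by
    have h1 := hNF i hi j hj ρ₁ (ρ₂ - ρ₁) (by omega) (by
      rw [Nat.cast_sub a5]
      have : (ρ₂ : ℝ) ≤ U := by exact_mod_cast a6
      linarith) (fun ω => ω ∈ E) (by
        rw [← Pr_Pb]
        exact hEϖ)
    rw [← hp, show ρ₁ + (ρ₂ - ρ₁) = ρ₂ by omega, Nat.cast_sub a5] at h1
    refine le_trans ?_ h1
    refine CH_mono_cond hpL.nonneg fun ω ω' hω hω' e => ?_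
    simp only [Prod.mk.injEq] at e ⊢
    refine ⟨e.1, vd_coarse ?_ e.2.1, hO.s_c i hi j hj ω ω' (hpq ω hω) (hpq ω' hω')
      (Prod.ext e.2.2.1 e.2.2.2), e.2.2.2⟩
    rw [hV]
    exact Nat.mul_le_mul_left _ (Nat.mul_le_mul_right _ a6)
  have e4 := Blk.blk_abs hq E hE (fun ω => (D.c i j ω, D.T ω)) (D.vd n i j V) (D.s i' j')
    (kpA D n K₀ z i j i' j' X bb) (htA D n K₀ z i j i' j' X bb)
    (fun ω => htA D n K₀ z i j i' j' X bb ω / 2 ^ (X - r₁))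
    (fun ω => htA D n K₀ z i j i' j' X bb ω / 2 ^ (X - r₂)) (Yp D n z i j X)
    (fun ω => ⌊(2 : ℝ) ^ r₁ * zt D i j ω n⌋) (fun ω => ⌊(2 : ℝ) ^ r₂ * zt D i j ω n⌋)
    (D.nd n i j (ρ₁ * z)) (D.nd n i j (ρ₂ * z))
    (fun ω ω' _ _ e => by
      simp only [Prod.mk.injEq] at e
      exact (kpA_same (ss_same hO e.1 e.2.1 e.2.2 _) K₀ z bb).2.2)
    (fun ω ω' _ _ e => by
      dsimp only
      rw [e])
    (fun ω ω' _ _ e => by
      dsimp only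
      rw [e])
    (MB := ((n - 1 : ℕ) : ℝ) * (V * Real.log 2 + 3)) (κ := κ' * z + ((n - 1 : ℕ) : ℝ) * 3)
    (r := Cb * bb + Cb * X * P) (c₁ := Ca) (c₂ := 2) (c₃ := Ca) (c₄ := z + Ca)
    (Q := (1 - h) * (((ρ₂ : ℝ) - ρ₁) * z) * Real.log 2 + C₁ * z)
    (fun p' hp' hs => Blk.vd_card hO hi hj hp' hs V _) (by
      have k1 : ((n - 1 : ℕ) : ℝ) * (V * Real.log 2 + 3) - (κ' * z + ((n - 1 : ℕ) : ℝ) * 3) =
        ((n - 1 : ℕ) : ℝ) * (V * Real.log 2) - κ' * z := by ring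
      rw [k1]
      exact hful) g1 (by rw [← hp]; exact f1) (by rw [← hp]; exact e1) (by rw [← hp]; exact e2)
      (by rw [← hp]; exact f3) (by rw [← hp]; exact f4) (by rw [← hp]; exact e3)
  rw [← hp] at e4 ⊢
  -- the relative time
  have e5 : CH p (fun ω => htA D n K₀ z i j i' j' X bb ω / 2 ^ (X - r₂))
      (fun ω => (htA D n K₀ z i j i' j' X bb ω / 2 ^ (X - r₁),
          (D.c i j ω, (thr D J (w₀ + j * z) ω, kpA D n K₀ z i j i' j' X bb ω)))) ≤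
      CH p (fun ω => htA D n K₀ z i j i' j' X bb ω / 2 ^ (X - r₂))
      (fun ω => (htA D n K₀ z i j i' j' X bb ω / 2 ^ (X - r₁),
          (kpA D n K₀ z i j i' j' X bb ω, (D.c i j ω, D.T ω)))) := by
    refine CH_mono_cond hpL.nonneg fun ω ω' hω hω' e => ?_
    simp only [Prod.mk.injEq] at e ⊢
    refine ⟨e.1, e.2.2.2, e.2.1, ?_⟩
    have h1 : D.T ω / 2 ^ (J - (w₀ + j * z)) = D.T ω' / 2 ^ (J - (w₀ + j * z)) :=
      hO.c_T i hi j hj ω ω' (hpq ω hω) (hpq ω' hω') e.2.1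
    have h2 : D.T ω % 2 ^ (J - (w₀ + j * z)) = D.T ω' % 2 ^ (J - (w₀ + j * z)) := e.2.2.1
    rw [← Nat.div_add_mod (D.T ω) (2 ^ (J - (w₀ + j * z))),
      ← Nat.div_add_mod (D.T ω') (2 ^ (J - (w₀ + j * z))), h1, h2]
  refine e5.trans (e4.trans ?_)
  -- the numbers
  have k1 : ((ρ₂ : ℝ) - ρ₁) * z ≤ (r₂ : ℝ) - r₁ + z := by
    have h1 : (ρ₂ : ℝ) * z ≤ r₂ := by exact_mod_cast a2
    have h2 : (r₁ : ℝ) ≤ ρ₁ * z + z := by exact_mod_cast a3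
    linarith
  have k2 : (1 - h) * (((ρ₂ : ℝ) - ρ₁) * z) * Real.log 2 ≤
      (1 - h) * ((r₂ : ℝ) - r₁) * Real.log 2 + z := by
    have h1 : (1 - h) * (((ρ₂ : ℝ) - ρ₁) * z) * Real.log 2 ≤
        (1 - h) * ((r₂ : ℝ) - r₁ + z) * Real.log 2 :=
      mul_le_mul_of_nonneg_right (mul_le_mul_of_nonneg_left k1 (by linarith)) hl0.le
    have h2 : (1 - h) * (z : ℝ) * Real.log 2 ≤ 1 * z * 1 := by
      refine mul_le_mul (mul_le_mul_of_nonneg_right (by linarith) (by linarith)) hl2 hl0.le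
        (by linarith)
    have h3 : (1 - h) * ((r₂ : ℝ) - r₁ + z) * Real.log 2 =
        (1 - h) * ((r₂ : ℝ) - r₁) * Real.log 2 + (1 - h) * (z : ℝ) * Real.log 2 := by ring
    linarith
  have k3 : (κ' * z + ((n - 1 : ℕ) : ℝ) * 3 + (Cb * bb + Cb * X * P) + Real.log 2) / Pr q E ≤
      (κ' * z + (4 * Ca + Cb + 3 * ((n - 1 : ℕ) : ℝ) + 10) * bb +
        (4 * Ca + Cb + 3 * ((n - 1 : ℕ) : ℝ) + 10) * X * P +
        (4 * Ca + Cb + 3 * ((n - 1 : ℕ) : ℝ) + 10)) / Pr q E := by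
    refine div_le_div_of_nonneg_right ?_ hE.le
    have hbb0 : (0 : ℝ) ≤ bb := Nat.cast_nonneg _
    have h1 : 0 ≤ (4 * Ca + 3 * ((n - 1 : ℕ) : ℝ) + 10) * (bb : ℝ) := by positivity
    have h2 : 0 ≤ (4 * Ca + 3 * ((n - 1 : ℕ) : ℝ) + 10) * ((X : ℝ) * P) := by positivity
    nlinarith
  have k4 : (4 * Ca + 5 : ℝ) ≤ (4 * Ca + 5) * z := le_mul_of_one_le_right (by linarith) hzR
  have k5 : 0 ≤ (Cb + 3 * ((n - 1 : ℕ) : ℝ)) * (z : ℝ) := by positivity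
  linarith

end Pool.LSH
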