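import Pool.Agent.H55.GEN.One

/-!
# (H3), abstract form

`V` is full given `(R, G)`; on the event `E` the position `Y` and `V` determine each other up to few
bits and the data `Z` are few given `(R, G)`: then `Y` is full given `Z`.
-/

set_option autoImplicit false

namespace Pool.LSH.Blk

open Finset
open Pool.Agent.H49.Ent Pool.Agent.H32.Dense Pool.STK
open Pool.KAF (Pr)

variable {Ω : Type} [Fintype Ω]

theorem ev_le {S T : Type} {q : Ω → ℝ} (hq : IsLaw q) (E : Set Ω) (X : Ω → S) (Y : Ω → T) :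
    Pr q E * CH (cond q (fun ω => ω ∈ E) True) X Y ≤ CH q X Y := by
  classical
  have h2 := Pool.KJ.CH_two hq.nonneg X Y (fun ω => ω ∈ E)
  have h3 : CH q X (fun ω => (Y ω, decide (ω ∈ E))) ≤ CH q X Y :=
    CH_mono_cond hq.nonneg fun ω ω' _ _ h => (Prod.ext_iff.1 h).1
  have h4 : 0 ≤ law q (fun ω => ω ∈ E) False * CH (cond q (fun ω => ω ∈ E) False) X Y :=
    mul_nonneg (law_nonneg hq.nonneg _ _) (CH_nonneg (fun ω => cond_nonneg hq.nonneg _ _ ω) _ _)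
  have h5 : Pr q E = law q (fun ω => ω ∈ E) True := rfl
  rw [← h5] at h2
  linarith

theorem h3_abs {ρ γ υ ζ ν : Type} {q : Ω → ℝ} (hq : IsLaw q) (E : Set Ω) (hE : 0 < Pr q E)
    (V : Ω → ν) (R : Ω → ρ) (G : Ω → γ) (Y : Ω → υ) (Z : Ω → ζ) {MV err e₁ e₂ : ℝ}
    (h0 : 0 ≤ e₁ + e₂)
    (hMV : ∀ p : Ω → ℝ, IsLaw p → (∀ ω, 0 < p ω → 0 < q ω) → CH p V (fun _ => ()) ≤ MV)
    (hful : MV - err ≤ CH q V (fun ω => (R ω, G ω)))
    (h1 : CH (cond q (fun ω => ω ∈ E) True) V (fun ω => (Y ω, (R ω, G ω))) ≤ e₁)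
    (h2 : CH (cond q (fun ω => ω ∈ E) True) Z (fun ω => (R ω, G ω)) ≤ e₂) :
    Pr q E * MV - (err + Real.log 2 + e₁ + e₂) ≤ CH q Y Z := by
  obtain ⟨p, hp⟩ : ∃ p : Ω → ℝ, p = cond q (fun ω => ω ∈ E) True := ⟨_, rfl⟩
  have hq0 := hq.nonneg
  have hpL : IsLaw p := by
    rw [hp]
    exact ⟨fun ω => cond_nonneg hq0 _ _ ω, sum_cond q _ hE.ne'⟩
  have hM : ∀ p' : Ω → ℝ, IsLaw p' → (∀ ω, 0 < p' ω → 0 < q ω) →
      CH p' V (fun ω => (R ω, G ω)) ≤ MV := by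
    intro p' hp' hs
    exact (CH_mono_cond hp'.nonneg fun _ _ _ _ _ => rfl).trans (hMV p' hp' hs)
  have a2 := Pool.DY1.ev_ge hq E V (fun ω => (R ω, G ω)) MV hE hM
  have a7 := ev_le hq E Y Z
  rw [← hp] at h1 h2 a2 a7
  have hp0 := hpL.nonneg
  have a3 : (MV - CH q V (fun ω => (R ω, G ω)) + Real.log 2) / Pr q E ≤
      (err + Real.log 2) / Pr q E := div_le_div_of_nonneg_right (by linarith) hE.le
  have a4 := CH_le_add hp0 V Y (fun ω => (R ω, G ω))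
  have a5 := CH_le_add hp0 Y Z (fun ω => (R ω, G ω))
  have a6 : CH p Y (fun ω => (Z ω, (R ω, G ω))) ≤ CH p Y Z :=
    CH_mono_cond hp0 fun ω ω' _ _ h => (Prod.ext_iff.1 h).1
  have a8 : MV - (err + Real.log 2) / Pr q E - (e₁ + e₂) ≤ CH p Y Z := by linarith
  have a9 := mul_le_mul_of_nonneg_left a8 hE.le
  have hE1 : Pr q E ≤ 1 := by
    have : Pr q E = law q (fun ω => ω ∈ E) True := rfl
    rw [this, ← hq.sum_one]
    unfold law
    refine Finset.sum_le_sum fun ω _ => ?_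
    split_ifs
    · exact le_rfl
    · exact hq0 ω
  have b1 : Pr q E * (MV - (err + Real.log 2) / Pr q E - (e₁ + e₂)) =
      Pr q E * MV - (err + Real.log 2) - Pr q E * (e₁ + e₂) := by
    field_simp
  have b2 : Pr q E * (e₁ + e₂) ≤ 1 * (e₁ + e₂) := mul_le_mul_of_nonneg_right hE1 h0
  linarith

end Pool.LSH.Blk
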