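import Pool.Agent.H25.LSH.Blk

/-!
# The sheets of a cell: the blocks of rows of the height are not full

`h5`: hypothesis (H5) of `shA`.
-/

set_option autoImplicit false

namespace Pool.LSH

open Finset MvPolynomial
open Pool.Agent.H49.Ent Pool.Agent.H32.Dense Pool.STK Pool.STAT Pool.MIC Pool.MicA
open Pool.BFL (Pl Pb)
open Pool.KAF (Pr)

/-- **(H5)** of the sheets of a cell. -/
theorem h5 (n K K₀ B : ℕ) (C₁ h κ₀ π₀ b₀ : ℝ) (hn : 1 ≤ n) (hB : 1 ≤ B)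
    (hK : K * (K + 1) ^ n ≤ K₀) (hC₁ : 0 ≤ C₁) (hh : 0 < h) (hh1 : h ≤ 1) (hκ₀ : 0 < κ₀)
    (hπ₀ : 0 < π₀) (hb₀ : 0 ≤ b₀) :
    ∃ (U₀ : ℕ) (e : ℝ), 0 < e ∧
    ∀ {D : NDat2} {J a₀ w₀ z M X U bb N : ℕ} {lam gam : ℕ → ℝ} {κ ϖ κ' : ℝ} {q : D.Ω → ℝ} {k : ℕ}
      (π : Pls k) (o' a : ℕ × ℕ) (ω₀ : D.Ω), D.Ok2 n K J a₀ w₀ z M lam gam κ C₁ q →
      D.NF n z M B gam h C₁ ϖ q → ϖ ≤ π₀ → κ' ≤ 1 → 1 ≤ z → U₀ * z ≤ X → X ≤ U * z →
      π.o.1 + B * U ≤ M → (U : ℝ) ≤ gam n * (M - π.o.2) → π.o.2 ≤ M → o'.1 ≤ M → o'.2 ≤ M →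
      Fat D n π.o.1 π.o.2 o'.1 o'.2 → D.g π.o.1 π.o.2 n + X ≤ D.g o'.1 o'.2 n → 1 ≤ bb →
      (bb : ℝ) ≤ b₀ * z →
      ((n - 1 : ℕ) : ℝ) * (((B * (U * z) : ℕ) : ℝ) * Real.log 2) - κ' * z ≤
        CH q (D.vd n π.o.1 π.o.2 (B * (U * z)))
          (fun ω => (D.s o'.1 o'.2 ω, (D.c π.o.1 π.o.2 ω, D.T ω))) →
      Pb q (fun ω => ¬ Gdk D n K₀ z π.o.1 π.o.2 o'.1 o'.2 X bb ω) ≤ e →
      (shA D π q J (w₀ + π.o.2 * z) ω₀ n X N K₀ z bb o' a).H5 (h / 2) κ₀ π₀ := by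
  obtain ⟨C, hC, hblk⟩ := blk n K K₀ B hn hB hK
  obtain ⟨A, hA⟩ : ∃ A : ℝ, A = C + C₁ + (1 + C * b₀ + C) / π₀ := ⟨_, rfl⟩
  have hA0 : 0 ≤ A := by
    rw [hA]
    positivity
  obtain ⟨U₁, hU₁⟩ := exists_nat_ge (16 * A / (h * κ₀) + 2 / κ₀)
  have hhk : 0 < h * κ₀ := mul_pos hh hκ₀
  refine ⟨U₁, h * κ₀ * π₀ / (16 * C), by positivity, ?_⟩
  intro D J a₀ w₀ z M X U bb N lam gam κ ϖ κ' q k π o' a ω₀ hO hNF hϖ hκ' hz hX hXU hiB hUg hj hi'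
    hj' hF hg hbb hbb₀ hful hGd s hs E hE
  have hzR : (1 : ℝ) ≤ z := by exact_mod_cast hz
  have hXR : (U₁ : ℝ) * z ≤ X := by exact_mod_cast hX
  have hU1 : 16 * A / (h * κ₀) + 2 / κ₀ ≤ (U₁ : ℝ) := hU₁
  have hX1 : (16 * A / (h * κ₀)) * z ≤ X := by
    refine le_trans (mul_le_mul_of_nonneg_right ?_ (by linarith)) hXR
    have : 0 < 2 / κ₀ := by positivity
    linarith
  have hX2 : 2 / κ₀ ≤ (X : ℝ) := by
    have h1 : (0 : ℝ) ≤ 16 * A / (h * κ₀) := by positivity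
    have h2 : (U₁ : ℝ) ≤ U₁ * z := le_mul_of_one_le_right (Nat.cast_nonneg _) hzR
    linarith
  have hX2' : 2 ≤ κ₀ * (X : ℝ) := by
    rw [div_le_iff₀ hκ₀] at hX2
    linarith
  have hX3 : 1 ≤ X := by
    by_contra h1
    have h2 : X = 0 := by omega
    rw [h2, Nat.cast_zero, mul_zero] at hX2'
    linarith
  have hE0 : 0 < Pr q E := hπ₀.trans_le hE
  obtain ⟨m, hm⟩ : ∃ m : ℕ, m = ⌊κ₀ * (X : ℝ)⌋₊ := ⟨_, rfl⟩
  have hm1 : κ₀ * (X : ℝ) / 2 ≤ m := by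
    have h1 := Nat.lt_floor_add_one (κ₀ * (X : ℝ))
    rw [← hm] at h1
    linarith
  have hs' : (s + 1) * m ≤ X := by
    rw [hm]
    exact hs
  have h1 := hblk (h := h) (i := π.o.1) (j := π.o.2) (i' := o'.1) (j' := o'.2)
    (X := X) (U := U) (bb := bb) hO hNF hh.le hh1 hz hX3 hXU hiB hUg hj hi' hj' hF hg hbb hful
    (s * m) ((s + 1) * m) (Nat.mul_le_mul_right _ (Nat.le_succ s)) hs' E (hϖ.trans hE) hE0
  have h2 : CH (cond q (fun ω => ω ∈ E) True)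
      ((shA D π q J (w₀ + π.o.2 * z) ω₀ n X N K₀ z bb o' a).row ((s + 1) * m))
      (fun ω => ((shA D π q J (w₀ + π.o.2 * z) ω₀ n X N K₀ z bb o' a).row (s * m) ω,
        (shA D π q J (w₀ + π.o.2 * z) ω₀ n X N K₀ z bb o' a).T ω)) ≤
      (1 - h / 2) * m * Real.log 2 := by
    refine le_trans h1 ?_
    push_cast
    have k1 : (1 - h) * (((s : ℝ) + 1) * m - s * m) * Real.log 2 = (1 - h) * m * Real.log 2 := by
      ring
    rw [k1]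
    have k2 : (κ' * z + C * bb + C * X * Pb q (fun ω => ¬ Gdk D n K₀ z π.o.1 π.o.2 o'.1 o'.2 X
        bb ω) + C) / Pr q E ≤ ((1 + C * b₀ + C) * z + C * X * (h * κ₀ * π₀ / (16 * C))) / π₀ := by
      have u1 : κ' * z ≤ 1 * z := mul_le_mul_of_nonneg_right hκ' (by linarith)
      have u2 : C * (bb : ℝ) ≤ C * (b₀ * z) := mul_le_mul_of_nonneg_left hbb₀ (by linarith)
      have u3 : C * X * Pb q (fun ω => ¬ Gdk D n K₀ z π.o.1 π.o.2 o'.1 o'.2 X bb ω) ≤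
          C * X * (h * κ₀ * π₀ / (16 * C)) := mul_le_mul_of_nonneg_left hGd (by positivity)
      have u4 : C ≤ C * z := le_mul_of_one_le_right (by linarith) hzR
      have u5 : κ' * z + C * bb + C * X * Pb q (fun ω => ¬ Gdk D n K₀ z π.o.1 π.o.2 o'.1 o'.2 X
          bb ω) + C ≤ (1 + C * b₀ + C) * z + C * X * (h * κ₀ * π₀ / (16 * C)) := by
        linarith
      have u6 : 0 ≤ (1 + C * b₀ + C) * z + C * X * (h * κ₀ * π₀ / (16 * C)) := by positivity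
      calc _ ≤ ((1 + C * b₀ + C) * z + C * X * (h * κ₀ * π₀ / (16 * C))) / Pr q E :=
            div_le_div_of_nonneg_right u5 hE0.le
        _ ≤ _ := div_le_div_of_nonneg_left u6 hπ₀ hE
    have k3 : ((1 + C * b₀ + C) * z + C * X * (h * κ₀ * π₀ / (16 * C))) / π₀ =
        (1 + C * b₀ + C) / π₀ * z + h * κ₀ / 16 * X := by
      have hC0 : C ≠ 0 := by linarith
      field_simp
    have k4 : A * z ≤ h * κ₀ / 16 * X := by
      have u1 : 16 * A / (h * κ₀) * z = A * z * 16 / (h * κ₀) := by ring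
      rw [u1, div_le_iff₀ hhk] at hX1
      linarith
    have k5 : A * z = (C + C₁) * z + (1 + C * b₀ + C) / π₀ * z := by
      rw [hA]
      ring
    have hl : (1 : ℝ) / 2 ≤ Real.log 2 := by
      have := Real.log_two_gt_d9
      linarith
    have k6 : h * κ₀ / 8 * X ≤ h / 2 * m * Real.log 2 := by
      have u1 : h / 2 * (κ₀ * X / 2) * (1 / 2) ≤ h / 2 * m * Real.log 2 :=
        mul_le_mul (mul_le_mul_of_nonneg_left hm1 (by linarith)) hl (by norm_num) (by positivity)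
      linarith
    have k7 : (1 - h / 2) * m * Real.log 2 = (1 - h) * m * Real.log 2 + h / 2 * m * Real.log 2 := by
      ring
    linarith
  rw [hm] at h2
  exact h2

end Pool.LSH
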